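import Pool.Agent.H88PP.Final

/-!
# MP_62e0a5: the covering theorem for all families (no arithmetic hypothesis)
-/

set_option autoImplicit false
set_option linter.unusedSectionVars false
open Cardinal Ordinal Set Order

namespace H88PP

section all

variable {α : Type} [LinearOrder α] [WellFoundedLT α] {Θ Ω : Type} [LinearOrder Ω]
  [WellFoundedLT Ω]
variable {Λ : ℕ → Cardinal.{0}} {L : ℕ → α} {ρ : α → α} {fs idx : α → α → α}
  {F : Θ → α → α}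

/-- `F` dominates, modulo bounded, on all countable sets of regular elements. -/
def Univ (Λ : ℕ → Cardinal.{0}) (F : Θ → α → α) : Prop :=
  (∀ η δ, RegEl δ → F η δ < δ) ∧
  ∀ a : Set α, a.Countable → ∀ g : α → α, (∀ δ ∈ a, RegEl δ → g δ < δ) →
    ∃ (η : Θ) (j : ℕ), ∀ δ ∈ a, RegEl δ → Λ j < sz δ → g δ ≤ F η δ

/-- The small closure of `A0` along `Y`. -/
def NN (L : ℕ → α) (ρ : α → α) (fs idx : α → α → α) (F : Θ → α → α) (A0 : Set α)
    (Y : Set Θ) : Set α :=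
  {x | Cl (A0 ∪ Set.range L) (insert ρ (F '' Y)) {fs, idx} x}

lemma NN_mono {A0 : Set α} {Y Y' : Set Θ} (h : Y ⊆ Y') :
    NN L ρ fs idx F A0 Y ⊆ NN L ρ fs idx F A0 Y' := fun _ hx =>
  Cl.mono subset_rfl (Set.insert_subset_insert (Set.image_mono h)) subset_rfl hx

lemma countable_NN {A0 : Set α} (hA : A0.Countable) {Y : Set Θ} (hY : Y.Countable) :
    (NN L ρ fs idx F A0 Y).Countable := by
  rw [← Cardinal.le_aleph0_iff_set_countable]
  refine mk_Cl_le le_rfl ?_ ?_ ?_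
  · exact Cardinal.le_aleph0_iff_set_countable.2 (hA.union (Set.countable_range L))
  · exact Cardinal.le_aleph0_iff_set_countable.2 ((hY.image F).insert ρ)
  · exact Cardinal.le_aleph0_iff_set_countable.2 (Set.toFinite _).countable

variable (Λ L ρ fs idx F)

/-- `η` is good for the closure along `Y`. -/
def GoodU (A0 : Set α) (Y : Set Θ) (η : Θ) : Prop :=
  ∃ j, ∀ δ ∈ NN L ρ fs idx F A0 Y, RegEl δ → Λ j < sz δ →
    ∀ x ∈ NN L ρ fs idx F A0 Y, x < δ → x ≤ F η δ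

variable {Λ L ρ fs idx F}

lemma exists_goodU (hΛ0 : ℵ₀ ≤ Λ 0) (hΛ : Monotone Λ) (hF : Univ Λ F) {A0 : Set α}
    (hA : A0.Countable) {Y : Set Θ} (hY : Y.Countable) :
    ∃ η, GoodU Λ L ρ fs idx F A0 Y η := by
  classical
  have hN := countable_NN (L := L) (ρ := ρ) (fs := fs) (idx := idx) (F := F) hA hY
  set N := NN L ρ fs idx F A0 Y with hNdef
  have key : ∀ δ : α, RegEl δ → ℵ₀ < sz δ → ∃ z < δ, ∀ y ∈ N, y < δ → y ≤ z := by
    intro δ hδ h0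
    exact hδ.bound N (lt_of_le_of_lt (Cardinal.le_aleph0_iff_set_countable.2 hN) h0)
  have key' : ∀ δ : α, ∃ z : α, (RegEl δ → z < δ) ∧
      (RegEl δ → ℵ₀ < sz δ → ∀ y ∈ N, y < δ → y ≤ z) := by
    intro δ
    by_cases hδ : RegEl δ
    · by_cases h0 : ℵ₀ < sz δ
      · obtain ⟨z, h1, h2⟩ := key δ hδ h0
        exact ⟨z, fun _ => h1, fun _ _ => h2⟩
      · obtain ⟨z, hz⟩ := exists_below hδ.1.aleph0_le
        exact ⟨z, fun _ => hz, fun _ h => absurd h h0⟩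
    · exact ⟨δ, fun h => absurd h hδ, fun h => absurd h hδ⟩
  choose g hg1 hg2 using key'
  obtain ⟨η, j, hj⟩ := hF.2 N hN g (fun δ _ h => hg1 δ h)
  refine ⟨η, j, fun δ hδN hδ hδj x hxN hxδ => ?_⟩
  have h0 : ℵ₀ < sz δ := lt_of_le_of_lt (hΛ0.trans (hΛ (Nat.zero_le j))) hδj
  exact (hg2 δ hδ h0 x hxN hxδ).trans (hj δ hδN hδ hδj)

lemma exists_chainU (hΛ0 : ℵ₀ ≤ Λ 0) (hΛ : Monotone Λ) (hF : Univ Λ F) {A0 : Set α}
    (hA : A0.Countable) (hΩ : ∀ ζ : Ω, (Set.Iio ζ).Countable) :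
    ∃ η : Ω → Θ, ∀ ζ, GoodU Λ L ρ fs idx F A0 (η '' Set.Iio ζ) (η ζ) := by
  classical
  have : Nonempty Θ := ⟨(hF.2 ∅ Set.countable_empty id (by simp)).choose⟩
  let nx : Set Θ → Θ := fun Y =>
    if h : ∃ η, GoodU Λ L ρ fs idx F A0 Y η then h.choose else Classical.arbitrary Θ
  have hnx : ∀ Y : Set Θ, Y.Countable → GoodU Λ L ρ fs idx F A0 Y (nx Y) := by
    intro Y hY
    have h := exists_goodU (L := L) (ρ := ρ) (fs := fs) (idx := idx) hΛ0 hΛ hF hA hY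
    simp only [nx, h, dif_pos]
    exact h.choose_spec
  let η : Ω → Θ := (wellFounded_lt (α := Ω)).fix fun ζ ih =>
    nx {t | ∃ (z : Ω) (h : z < ζ), t = ih z h}
  have hη : ∀ ζ, η ζ = nx (η '' Set.Iio ζ) := by
    intro ζ
    have : η ζ = nx {t | ∃ (z : Ω) (_ : z < ζ), t = η z} :=
      (wellFounded_lt (α := Ω)).fix_eq _ ζ
    rw [this]
    congr 1
    ext t
    constructor
    · rintro ⟨z, hz, rfl⟩
      exact ⟨z, hz, rfl⟩
    · rintro ⟨z, hz, rfl⟩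
      exact ⟨z, hz, rfl⟩
  refine ⟨η, fun ζ => ?_⟩
  have := hnx (η '' Set.Iio ζ) ((hΩ ζ).image η)
  rwa [← hη ζ] at this

/-- The large closure along `W`. -/
def DD (Λ : ℕ → Cardinal.{0}) (L : ℕ → α) (ρ : α → α) (fs : α → α → α) (F : Θ → α → α)
    (W : Set Θ) (j : ℕ) : Set α :=
  D Λ L ρ fs (F '' W) j

/-- **Covering theorem for universal families.** -/
theorem coverU (hord : typeLT α = (#α).ord) (hΛ0 : ℵ₀ ≤ Λ 0) (hΛ : Monotone Λ)
    (hΛc : ∀ μ < #α, ∃ j, μ < Λ j)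
    (hL : ∀ n y, sz y < Λ n → y < L n) (hw : Walks ρ fs idx) (hF : Univ Λ F)
    (hΩ : ∀ ζ : Ω, (Set.Iio ζ).Countable) (hΩu : ¬ (Set.univ : Set Ω).Countable)
    {K : Type} (W : K → Set Θ) (hW : ∀ q : Ω → Θ, ∃ w, ¬ {ζ | q ζ ∈ W w}.Countable)
    {A0 : Set α} (hA0 : A0.Countable) :
    ∃ (w : K) (j : ℕ), A0 ⊆ DD Λ L ρ fs F (W w) j := by
  classical
  obtain ⟨η, hη⟩ := exists_chainU (L := L) (ρ := ρ) (fs := fs) (idx := idx) (Ω := Ω)
    hΛ0 hΛ hF hA0 hΩ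
  obtain ⟨w, hwu⟩ := hW η
  choose jf hjf using hη
  obtain ⟨j0, hj0⟩ : ∃ j, ¬ {ζ | η ζ ∈ W w ∧ jf ζ ≤ j}.Countable := by
    by_contra hcon
    push Not at hcon
    apply hwu
    have : {ζ | η ζ ∈ W w} ⊆ ⋃ j, {ζ | η ζ ∈ W w ∧ jf ζ ≤ j} := by
      intro ζ hζ
      exact Set.mem_iUnion.2 ⟨jf ζ, hζ, le_rfl⟩
    exact (Set.countable_iUnion hcon).mono this
  have hnext : ∀ ζ : Ω, ∃ ζ', (η ζ' ∈ W w ∧ jf ζ' ≤ j0) ∧ ζ < ζ' := by
    intro ζ
    by_contra hcon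
    push Not at hcon
    apply hj0
    have h1 : (Set.Iic ζ).Countable := by
      have : Set.Iic ζ = insert ζ (Set.Iio ζ) := by
        ext x; simp [le_iff_eq_or_lt]
      rw [this]
      exact (hΩ ζ).insert ζ
    exact h1.mono fun ζ' hζ' => hcon ζ' hζ'
  let N : Ω → Set α := fun ζ => NN L ρ fs idx F A0 (η '' Set.Iio ζ)
  have hNmono : Monotone N := fun ζ ζ' h => NN_mono (Set.image_mono (Set.Iio_subset_Iio h))
  have key : ∀ δ : α, (∃ ζ, δ ∈ N ζ) → δ ∈ DD Λ L ρ fs F (W w) j0 → ∀ x, (∃ ζ, x ∈ N ζ) →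
      x < δ → x ∈ DD Λ L ρ fs F (W w) j0 := by
    intro δ
    induction δ using WellFoundedLT.induction with
    | ind δ ih =>
      rintro ⟨k1, hk1⟩ hδ x ⟨k2, hk2⟩ hxδ
      by_cases hsx : sz x < Λ j0
      · exact D_seed hsx
      rw [not_lt] at hsx
      have hinf : ℵ₀ ≤ sz δ :=
        (hΛ0.trans (hΛ (Nat.zero_le j0))).trans (hsx.trans (sz_mono hxδ.le))
      by_cases hρ : ρ δ = δ
      · have hreg := hw.reg δ hρ hinf
        have hlt0 : Λ j0 < sz δ := lt_of_le_of_lt hsx (hreg.lt_iff.1 hxδ)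
        obtain ⟨ζ, ⟨hζW, hζj⟩, hζ⟩ := hnext (max k1 k2)
        have hδk : δ ∈ N ζ := hNmono ((le_max_left _ _).trans hζ.le) hk1
        have hxk : x ∈ N ζ := hNmono ((le_max_right _ _).trans hζ.le) hk2
        obtain ⟨ζ', -, hζ'⟩ := hnext ζ
        have hx1 : x ≤ F (η ζ) δ :=
          hjf ζ δ hδk hreg (lt_of_le_of_lt (hΛ hζj) hlt0) x hxk hxδ
        have hx2 : F (η ζ) δ < δ := hF.1 _ δ hreg
        have hx3 : F (η ζ) δ ∈ DD Λ L ρ fs F (W w) j0 :=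
          D_fn (Set.mem_image_of_mem F hζW) hδ
        have hx4 : F (η ζ) δ ∈ N ζ' :=
          Cl.un (Set.mem_insert_of_mem _ ⟨η ζ, ⟨ζ, hζ', rfl⟩, rfl⟩) (hNmono hζ'.le hδk)
        rcases hx1.lt_or_eq with hx | hx
        · exact ih _ hx2 ⟨_, hx4⟩ hx3 x ⟨k2, hk2⟩ hx
        · rw [hx]; exact hx3
      · have hρlt : ρ δ < δ := lt_of_le_of_ne (hw.rho_le δ) hρ
        set k := max k1 k2 with hk
        have hδk : δ ∈ N k := hNmono (le_max_left _ _) hk1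
        have hxk : x ∈ N k := hNmono (le_max_right _ _) hk2
        have hρk : ρ δ ∈ N k := Cl.un (Set.mem_insert _ _) hδk
        have hy1 : idx δ x < ρ δ := hw.idx_lt δ x hxδ
        have hy2 : idx δ x ∈ N k := Cl.bin (Or.inr rfl) hδk hxk
        have hy3 : idx δ x ∈ DD Λ L ρ fs F (W w) j0 :=
          ih _ hρlt ⟨k, hρk⟩ (D_rho hδ) _ ⟨k, hy2⟩ hy1
        have hz1 : fs δ (idx δ x) < δ := hw.fs_lt δ _ hy1
        have hz2 : fs δ (idx δ x) ∈ N k := Cl.bin (Or.inl rfl) hδk hy2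
        have hz3 : fs δ (idx δ x) ∈ DD Λ L ρ fs F (W w) j0 := D_fs hδ hy3
        rcases (hw.le_fs δ x hxδ).lt_or_eq with hx | hx
        · exact ih _ hz1 ⟨k, hz2⟩ hz3 x ⟨k2, hk2⟩ hx
        · rw [hx]; exact hz3
  have hΩne : Nonempty Ω := by
    by_contra hcon
    rw [not_nonempty_iff] at hcon
    exact hΩu (Set.countable_univ)
  obtain ⟨ζ0⟩ := hΩne
  refine ⟨w, j0, fun x hx => ?_⟩
  obtain ⟨n, hn⟩ := hΛc (sz x) (sz_lt hord x)
  exact key (L n) ⟨ζ0, Cl.base (Or.inr ⟨n, rfl⟩)⟩ (D_L n) x ⟨ζ0, Cl.base (Or.inl hx)⟩ (hL n x hn)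

lemma mk_DD_le (hord : typeLT α = (#α).ord) (hΛ0 : ℵ₀ ≤ Λ 0) (hΛ : Monotone Λ)
    (hΛlt : ∀ j, Λ j < #α) (W : Set Θ) (j : ℕ) :
    #(DD Λ L ρ fs F W j) ≤ max #W (Λ j) := by
  have h0 : ℵ₀ ≤ Λ j := hΛ0.trans (hΛ (Nat.zero_le j))
  have h1 : ℵ₀ ≤ max #W (Λ j) := h0.trans (le_max_right _ _)
  refine mk_Cl_le h1 ?_ ?_ ?_
  · refine le_trans ?_ (le_max_right _ _)
    refine (mk_union_le _ _).trans ?_
    refine (add_le_add (mk_sz_lt_le hord (hΛlt j)) ((mk_range_le).trans ?_)).trans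
      (add_eq_self h0).le
    simpa using h0
  · refine (mk_insert_le).trans ?_
    have h2 : #(F '' W) ≤ max #W (Λ j) := mk_image_le.trans (le_max_left _ _)
    refine (add_le_add h2 (one_le_aleph0.trans h1)).trans ?_
    exact (add_eq_self h1).le
  · refine (Cardinal.le_aleph0_iff_set_countable.2 (Set.toFinite _).countable).trans h1

end all

end H88PP
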