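import Pool.Agent.H88PP.Range

/-!
# MP_62e0a5: all families of regular cardinals (external form)
-/

set_option autoImplicit false
set_option linter.unusedSectionVars false
open Cardinal Ordinal Set Order

namespace H88PP

/-- `≤ θ` functions in the product of the `c i` dominate, on every countable set of indices and
modulo bounded in `lam`, every function there. -/
def Suff (lam : Cardinal.{0}) {ι : Type} (c : ι → Cardinal.{0}) (θ : Cardinal.{0}) : Prop :=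
  ∃ (K : Type) (F : K → ι → Ordinal.{0}), #K ≤ θ ∧ (∀ k i, F k i < (c i).ord) ∧
    ∀ a : Set ι, a.Countable → ∀ g : ι → Ordinal.{0}, (∀ i ∈ a, g i < (c i).ord) →
      ∃ (k : K) (μ : Cardinal.{0}), μ < lam ∧ ∀ i ∈ a, μ < c i → g i ≤ F k i

/-- The least number of functions which suffices for all families of regulars below `lam`. -/
noncomputable def allPP (lam : Cardinal.{0}) : Cardinal.{0} :=
  sInf {θ | ∀ (ι : Type) (c : ι → Cardinal.{0}), (∀ i, (c i).IsRegular ∧ c i < lam) →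
    Suff lam c θ}

variable {Λ : ℕ → Cardinal.{0}}

lemma suff_of_unifCof {lam : Cardinal.{0}} (hΛlt : ∀ j, Λ j < lam) {ι : Type}
    {c : ι → Cardinal.{0}} {θ : Cardinal.{0}} (h : UnifCof Λ c θ) : Suff lam c θ := by
  obtain ⟨K, F, hK, h1, h2⟩ := h
  refine ⟨K, F, hK, h1, fun a ha g hg => ?_⟩
  obtain ⟨k, j, hkj⟩ := h2 a ha g hg
  exact ⟨k, Λ j, hΛlt j, hkj⟩

lemma unifCof_of_suff {lam : Cardinal.{0}} (hΛc : ∀ μ < lam, ∃ j, μ < Λ j) {ι : Type}
    {c : ι → Cardinal.{0}} {θ : Cardinal.{0}} (h : Suff lam c θ) : UnifCof Λ c θ := by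
  obtain ⟨K, F, hK, h1, h2⟩ := h
  refine ⟨K, F, hK, h1, fun a ha g hg => ?_⟩
  obtain ⟨k, μ, hμ, hkj⟩ := h2 a ha g hg
  obtain ⟨j, hj⟩ := hΛc μ hμ
  exact ⟨k, j, fun i hi hji => hkj i hi (hj.trans hji)⟩

/-- A good sequence from a cofinal one. -/
lemma exists_seq {lam : Cardinal.{0}} (h0 : ℵ₀ < lam) (f : ℕ → Cardinal.{0})
    (hf : ∀ n, f n < lam) (hfc : ∀ μ < lam, ∃ n, μ < f n) :
    ∃ Λ : ℕ → Cardinal.{0}, Monotone Λ ∧ ℵ₀ ≤ Λ 0 ∧ (∀ j, Λ j < lam) ∧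
      ∀ μ < lam, ∃ j, μ < Λ j := by
  let Λ : ℕ → Cardinal.{0} := fun n => Nat.rec ℵ₀ (fun n c => max c (f n)) n
  have hs : ∀ n, Λ (n + 1) = max (Λ n) (f n) := fun n => rfl
  refine ⟨Λ, monotone_nat_of_le_succ fun n => ?_, le_rfl, fun j => ?_, fun μ hμ => ?_⟩
  · rw [hs]; exact le_max_left _ _
  · induction j with
    | zero => exact h0
    | succ n ih => rw [hs]; exact max_lt ih (hf n)
  · obtain ⟨n, hn⟩ := hfc μ hμ
    exact ⟨n + 1, by rw [hs]; exact lt_of_lt_of_le hn (le_max_right _ _)⟩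

section toInternal

variable {α : Type} [LinearOrder α] [WellFoundedLT α]

lemma univ_of_unifCof (hord : typeLT α = (#α).ord) {θ : Cardinal.{0}}
    (h : ∀ (ι : Type) (c : ι → Cardinal.{0}), (∀ i, (c i).IsRegular ∧ c i < #α) →
      UnifCof Λ c θ) :
    ∃ F : θ.ord.ToType → α → α, Univ Λ F := by
  classical
  obtain ⟨K, F, hK, hF1, hF2⟩ := h {x : α // RegEl x} (fun δ => sz δ.1)
    (fun δ => ⟨δ.2.1, sz_lt hord _⟩)
  obtain ⟨k0, -⟩ := hF2 ∅ Set.countable_empty (fun _ => 0) (by simp)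
  rw [← mk_ord_toType θ] at hK
  obtain ⟨e⟩ := (Cardinal.le_def _ _).1 hK
  have : Nonempty K := ⟨k0⟩
  have key : ∀ (k : K) (δ : {x : α // RegEl x}), ∃ z : α, z < δ.1 ∧
      typein (α := α) (· < ·) z = F k δ := by
    intro k δ
    have h1 : F k δ < typein (α := α) (· < ·) δ.1 := by
      rw [δ.2.2]; exact hF1 k δ
    obtain ⟨z, hz⟩ := typein_surj (α := α) (· < ·) (h1.trans (typein_lt_type _ _))
    exact ⟨z, by rw [← typein_lt_iff, hz]; exact h1, hz⟩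
  choose G hG1 hG2 using key
  refine ⟨fun η δ => if hδ : RegEl δ then G (Function.invFun e η) ⟨δ, hδ⟩ else δ, ?_, ?_⟩
  · intro η δ hδ
    simp only [hδ, dif_pos]
    exact hG1 _ ⟨δ, hδ⟩
  · intro a hacount g hg
    let a' : Set {x : α // RegEl x} := {δ | δ.1 ∈ a}
    have ha' : a'.Countable := hacount.preimage Subtype.val_injective
    obtain ⟨k, j, hkj⟩ := hF2 a' ha' (fun δ => typein (α := α) (· < ·) (g δ.1)) (by
      intro δ hδ
      have h2 : typein (α := α) (· < ·) (g δ.1) < typein (α := α) (· < ·) δ.1 :=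
        typein_lt_iff.2 (hg δ.1 hδ δ.2)
      rwa [δ.2.2] at h2)
    refine ⟨e k, j, fun δ hδ hreg hjδ => ?_⟩
    simp only [hreg, dif_pos, Function.leftInverse_invFun e.injective k]
    have h3 := hkj ⟨δ, hreg⟩ hδ hjδ
    rw [← hG2 k ⟨δ, hreg⟩] at h3
    by_contra hcon
    push Not at hcon
    exact absurd h3 (not_le.2 (typein_lt_iff.2 hcon))

/-- **The covering family** (no arithmetic hypothesis). -/
theorem exists_coverU (hord : typeLT α = (#α).ord) (hΛ0 : ℵ₀ ≤ Λ 0) (hΛ : Monotone Λ)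
    (hΛlt : ∀ j, Λ j < #α) (hΛc : ∀ μ < #α, ∃ j, μ < Λ j)
    {θ : Cardinal.{0}} (hθ : #α ≤ θ) (h2 : G2 #α θ.ord.ToType)
    {F : θ.ord.ToType → α → α} (hF : Univ Λ F) :
    ∃ P : Set (Set α), #P ≤ θ ∧ (∀ X ∈ P, #X < #α) ∧
      ∀ A : Set α, A.Countable → ∃ X ∈ P, A ⊆ X := by
  classical
  have hinf : ℵ₀ < #α := lt_of_le_of_lt hΛ0 (hΛlt 0)
  have hθ0 : ℵ₀ ≤ θ := hinf.le.trans hθ
  have hΘ : #θ.ord.ToType = θ := mk_ord_toType θ
  obtain ⟨K, W, hK, hW1, hW2⟩ := h2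
  rw [hΘ] at hK
  obtain ⟨ρ, fs, idx, hw⟩ := exists_walks (α := α)
  have hLex : ∀ n, ∃ x : α, ∀ y : α, sz y < Λ n → y < x := by
    intro n
    by_contra hcon
    push Not at hcon
    have hall : ∀ x : α, sz x < Λ n := by
      intro x
      obtain ⟨y, hy, hxy⟩ := hcon x
      exact lt_of_le_of_lt (sz_mono hxy) hy
    have : #{x : α | sz x < Λ n} ≤ Λ n := mk_sz_lt_le hord (hΛlt n)
    have huniv : {x : α | sz x < Λ n} = Set.univ := Set.eq_univ_of_forall hall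
    rw [huniv, mk_univ] at this
    exact absurd this (not_le.2 (hΛlt n))
  choose L hL using hLex
  refine ⟨Set.range fun p : K × ℕ => DD Λ L ρ fs F (W p.1) p.2, ?_, ?_, ?_⟩
  · refine mk_range_le.trans ?_
    rw [mk_prod, Cardinal.lift_id, Cardinal.lift_id, mk_nat]
    exact (mul_le_mul' hK hθ0).trans (mul_eq_self hθ0).le
  · rintro _ ⟨⟨w, j⟩, rfl⟩
    exact lt_of_le_of_lt (mk_DD_le hord hΛ0 hΛ hΛlt _ j) (max_lt (hW1 w) (hΛlt j))
  · intro A hA
    obtain ⟨w, j, hwj⟩ := coverU (Ω := Om) hord hΛ0 hΛ hΛc hL hw hF Om_Iio Om_unc W hW2 hA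
    exact ⟨_, ⟨(w, j), rfl⟩, hwj⟩

end toInternal

lemma cov_le_of_all {α : Type} (hΛ0 : ℵ₀ ≤ Λ 0) (hΛ : Monotone Λ)
    (hΛlt : ∀ j, Λ j < #α) (hΛc : ∀ μ < #α, ∃ j, μ < Λ j)
    {θ : Cardinal.{0}} (hθ : #α ≤ θ) (h2 : G2 #α θ.ord.ToType)
    (hT : ∀ (ι : Type) (c : ι → Cardinal.{0}), (∀ i, (c i).IsRegular ∧ c i < #α) →
      UnifCof Λ c θ) :
    sInf (covSet α) ≤ θ := by
  classical
  have hmk : #(#α).ord.ToType = #α := mk_ord_toType _
  have hord : typeLT (#α).ord.ToType = (#(#α).ord.ToType).ord := by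
    rw [hmk, type_toType]
  obtain ⟨F, hF⟩ := univ_of_unifCof (α := (#α).ord.ToType) (Λ := Λ) hord
    (by simpa only [hmk] using hT)
  obtain ⟨P, hP0, hP1, hP2⟩ := exists_coverU (α := (#α).ord.ToType) hord hΛ0 hΛ
    (by simpa only [hmk] using hΛlt) (by simpa only [hmk] using hΛc)
    (by simpa only [hmk] using hθ) (by simpa only [hmk] using h2) hF
  obtain ⟨e⟩ : Nonempty (α ≃ (#α).ord.ToType) := by
    rw [← Cardinal.eq, mk_ord_toType]
  have hmem : #((fun X : Set (#α).ord.ToType => e ⁻¹' X) '' P : Set (Set α)) ∈ covSet α := by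
    refine ⟨_, rfl, ?_, ?_⟩
    · rintro _ ⟨X, hX, rfl⟩
      refine lt_of_le_of_lt ?_ ((hP1 X hX).trans_eq hmk)
      exact mk_preimage_of_injective _ _ e.injective
    · intro A hA
      obtain ⟨X, hX, hAX⟩ := hP2 (e '' A) (hA.image e)
      exact ⟨_, ⟨X, hX, rfl⟩, Set.image_subset_iff.1 hAX⟩
  exact (csInf_le' hmem).trans (mk_image_le.trans hP0)

lemma G2_of_G2s {lam : Cardinal.{0}} {Θ : Type} (h : G2s lam Θ) : G2 lam Θ := by
  obtain ⟨K, W, hK, h1, h2⟩ := h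
  refine ⟨K, W, hK, h1, fun q => ?_⟩
  obtain ⟨k, hk⟩ := h2 Set.univ Om_unc q
  exact ⟨k, fun hcon => hk (hcon.mono fun ζ hζ => hζ.2)⟩

end H88PP
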