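import Pool.Agent.H88PP.Chain

/-!
# MP_62e0a5: the covering theorem (internal form)
-/

set_option autoImplicit false
set_option linter.unusedSectionVars false
open Cardinal Ordinal Set Order

namespace H88PP

section main

variable {α : Type} [LinearOrder α] [WellFoundedLT α] {Θ Ω : Type} [LinearOrder Ω]
  [WellFoundedLT Ω]
variable {Λ : ℕ → Cardinal.{0}} {L : ℕ → α} {ρ : α → α} {fs idx : α → α → α}
  {Φ : Set α → Θ → α → α}

lemma exists_level (hΛ : Monotone Λ) (hΛc : ∀ μ < #α, ∃ j, μ < Λ j) {μ : Cardinal.{0}}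
    (hμ : μ < #α) {j0 : ℕ} (h0 : Λ j0 < μ) : ∃ i, j0 ≤ i ∧ Λ i < μ ∧ μ ≤ Λ (i + 1) := by
  classical
  obtain ⟨m, hm⟩ := hΛc μ hμ
  have hex : ∃ m, μ ≤ Λ m := ⟨m, hm.le⟩
  have h1 := Nat.find_spec hex
  have h2 : j0 < Nat.find hex := by
    by_contra hcon
    rw [not_lt] at hcon
    exact absurd (h1.trans (hΛ hcon)) (not_le.2 h0)
  obtain ⟨i, hi⟩ : ∃ i, Nat.find hex = i + 1 := ⟨Nat.find hex - 1, by omega⟩
  refine ⟨i, by omega, ?_, by rw [← hi]; exact h1⟩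
  have := Nat.find_min hex (m := i) (by omega)
  exact not_le.1 this

/-- The union of a directed family of small closures is covered by a `D`. -/
theorem covered (hord : typeLT α = (#α).ord) (hΛ : Monotone Λ)
    (hΛ0 : ℵ₀ ≤ Λ 0) (hΛc : ∀ μ < #α, ∃ j, μ < Λ j)
    (hL : ∀ n y, sz y < Λ n → y < L n) (hw : Walks ρ fs idx)
    (A : ℕ → Set α) (hA : Monotone A)
    (hAL : ∀ n k, L n ∈ A k) (hAρ : ∀ k, ∀ x ∈ A k, ρ x ∈ A k)
    (hAfs : ∀ k, ∀ x ∈ A k, ∀ y ∈ A k, fs x y ∈ A k)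
    (hAidx : ∀ k, ∀ x ∈ A k, ∀ y ∈ A k, idx x y ∈ A k)
    (V : ℕ → Set (α → α)) (hV : Monotone V) (h : ℕ → α → α)
    (hhV : ∀ k, h k ∈ V (k + 1)) (hhA : ∀ k, ∀ x ∈ A (k + 1), h k x ∈ A (k + 1))
    (j0 : ℕ)
    (hlt : ∀ k, ∀ δ ∈ thinOf Λ L ρ fs (V k), h k δ < δ)
    (hdom : ∀ k, ∀ δ ∈ thinOf Λ L ρ fs (V k), δ ∈ A k → Λ j0 < sz δ →
      ∀ x ∈ A k, x < δ → x ≤ h k δ) :
    (⋃ k, A k) ⊆ D Λ L ρ fs (⋃ k, V k) j0 := by
  classical
  set W := ⋃ k, V k with hW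
  have key : ∀ δ : α, (∃ k, δ ∈ A k) → δ ∈ D Λ L ρ fs W j0 → ∀ x, (∃ k, x ∈ A k) → x < δ →
      x ∈ D Λ L ρ fs W j0 := by
    intro δ
    induction δ using WellFoundedLT.induction with
    | ind δ ih =>
      rintro ⟨k1, hk1⟩ hδ x ⟨k2, hk2⟩ hxδ
      by_cases hsx : sz x < Λ j0
      · exact D_seed hsx
      rw [not_lt] at hsx
      have hinf : ℵ₀ ≤ sz δ :=
        (hΛ0.trans (hΛ (Nat.zero_le j0))).trans (hsx.trans (sz_mono hxδ.le))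
      by_cases hρ : ρ δ = δ
      · have hreg := hw.reg δ hρ hinf
        have hlt0 : Λ j0 < sz δ := lt_of_le_of_lt hsx (hreg.lt_iff.1 hxδ)
        obtain ⟨k3, hk3⟩ := D_iUnion hV (hW ▸ hδ)
        set k := max k1 (max k2 k3) with hk
        have hδk : δ ∈ A k := hA (le_max_left _ _) hk1
        have hxk : x ∈ A k := hA ((le_max_left _ _).trans (le_max_right _ _)) hk2
        have hDk : δ ∈ D Λ L ρ fs (V k) j0 :=
          D_mono_V (hV ((le_max_right _ _).trans (le_max_right _ _))) j0 hk3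
        obtain ⟨i, hi1, hi2, hi3⟩ := exists_level hΛ hΛc (sz_lt hord δ) hlt0
        have hthin : δ ∈ thinOf Λ L ρ fs (V k) := ⟨hreg, i, hi2, hi3, D_mono_j hΛ hi1 hDk⟩
        have hx1 : x ≤ h k δ := hdom k δ hthin hδk hlt0 x hxk hxδ
        have hx2 : h k δ < δ := hlt k δ hthin
        have hx3 : h k δ ∈ D Λ L ρ fs W j0 :=
          D_fn (Set.mem_iUnion.2 ⟨k + 1, hhV k⟩) hδ
        have hx4 : h k δ ∈ A (k + 1) := hhA k δ (hA (Nat.le_succ k) hδk)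
        rcases hx1.lt_or_eq with hx | hx
        · exact ih _ hx2 ⟨_, hx4⟩ hx3 x ⟨k2, hk2⟩ hx
        · rw [hx]; exact hx3
      · have hρlt : ρ δ < δ := lt_of_le_of_ne (hw.rho_le δ) hρ
        set k := max k1 k2 with hk
        have hδk : δ ∈ A k := hA (le_max_left _ _) hk1
        have hxk : x ∈ A k := hA (le_max_right _ _) hk2
        have hy1 : idx δ x < ρ δ := hw.idx_lt δ x hxδ
        have hy2 : idx δ x ∈ A k := hAidx k δ hδk x hxk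
        have hy3 : idx δ x ∈ D Λ L ρ fs W j0 :=
          ih _ hρlt ⟨k, hAρ k δ hδk⟩ (D_rho hδ) _ ⟨k, hy2⟩ hy1
        have hz1 : fs δ (idx δ x) < δ := hw.fs_lt δ _ hy1
        have hz2 : fs δ (idx δ x) ∈ A k := hAfs k δ hδk _ hy2
        have hz3 : fs δ (idx δ x) ∈ D Λ L ρ fs W j0 := D_fs hδ hy3
        rcases (hw.le_fs δ x hxδ).lt_or_eq with hx | hx
        · exact ih _ hz1 ⟨k, hz2⟩ hz3 x ⟨k2, hk2⟩ hx
        · rw [hx]; exact hz3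
  intro x hx
  obtain ⟨k, hk⟩ := Set.mem_iUnion.1 hx
  obtain ⟨n, hn⟩ := hΛc (sz x) (sz_lt hord x)
  exact key (L n) ⟨k, hAL n k⟩ (D_L n) x ⟨k, hk⟩ (hL n x hn)

/-- **Internal covering theorem.** -/
theorem cover_of_code (hord : typeLT α = (#α).ord) (hΛ0 : ℵ₀ ≤ Λ 0) (hΛ : Monotone Λ)
    (hΛlt : ∀ j, Λ j < #α) (hΛc : ∀ μ < #α, ∃ j, μ < Λ j)
    (hL : ∀ n y, sz y < Λ n → y < L n) (hw : Walks ρ fs idx)
    (hΦ : Code Λ Φ) (hΩ : ∀ ζ : Ω, (Set.Iio ζ).Countable) (hΩu : ¬ (Set.univ : Set Ω).Countable)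
    (W : Θ → Set Θ) (hW : ∀ q : Ω → Θ, ∃ w, ¬ {ζ | q ζ ∈ W w}.Countable)
    {A0 : Set α} (hA0 : A0.Countable) :
    ∃ (w : Θ) (H : Set (Ω × Θ)) (j : ℕ), H.Countable ∧ (∀ p ∈ H, p.2 ∈ W w) ∧
      A0 ⊆ D Λ L ρ fs (VH Λ L ρ fs Φ H) j := by
  classical
  have hΩne : Nonempty Ω := by
    by_contra hcon
    rw [not_nonempty_iff] at hcon
    exact hΩu (Set.countable_univ)
  have hΘne : Nonempty Θ := by
    by_contra hcon
    rw [not_nonempty_iff] at hcon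
    exact hcon.elim ((hΦ.2 Empty (fun _ => ∅) ∅ (by simp) (by simp)
      (fun i => i.elim)).choose)
  obtain ⟨η, hη⟩ := exists_chain (L := L) (ρ := ρ) (fs := fs) (idx := idx) hord hΛ0 hΛ hΛlt hΦ
    hA0 hΩ
  obtain ⟨w, hwu⟩ := hW η
  set S : Set Ω := {ζ | η ζ ∈ W w} with hS
  -- history inside `S`
  let Hs : Ω → Set (Ω × Θ) := fun ζ => {p | p.1 ∈ S ∧ p.1 < ζ ∧ p.2 = η p.1}
  have hHs : ∀ ζ, Hs ζ ⊆ Yof η ζ := fun ζ p hp => ⟨hp.2.1, hp.2.2⟩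
  choose jf hjf using fun ζ => hη ζ (Hs ζ) (hHs ζ)
  obtain ⟨j0, hj0⟩ : ∃ j, ¬ {ζ | ζ ∈ S ∧ jf ζ ≤ j}.Countable := by
    by_contra hcon
    push Not at hcon
    apply hwu
    have : {ζ | η ζ ∈ W w} ⊆ ⋃ j, {ζ | ζ ∈ S ∧ jf ζ ≤ j} := by
      intro ζ hζ
      exact Set.mem_iUnion.2 ⟨jf ζ, hζ, le_rfl⟩
    exact (Set.countable_iUnion hcon).mono this
  have hnext : ∀ ζ : Ω, ∃ ζ', (ζ' ∈ S ∧ jf ζ' ≤ j0) ∧ ζ < ζ' := by
    intro ζ
    by_contra hcon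
    push Not at hcon
    apply hj0
    have h1 : {ζ | ζ ∈ S ∧ jf ζ ≤ j0} ⊆ Set.Iio ζ ∪ {ζ} := by
      intro z hz
      rcases (hcon z hz).lt_or_eq with h | h
      · exact Or.inl h
      · exact Or.inr h
    exact ((hΩ ζ).union (Set.countable_singleton ζ)).mono h1
  choose nx hnx1 hnx2 using hnext
  let z : ℕ → Ω := fun k => nx^[k + 1] (Classical.arbitrary Ω)
  have hz1 : ∀ k, z k ∈ S ∧ jf (z k) ≤ j0 := by
    intro k
    simp only [z, Function.iterate_succ_apply']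
    exact hnx1 _
  have hz2 : StrictMono z := by
    refine strictMono_nat_of_lt_succ fun k => ?_
    show nx^[k + 1] _ < nx^[k + 1 + 1] _
    rw [Function.iterate_succ_apply' nx (k + 1)]
    exact hnx2 _
  -- the limit history
  let Hω : Set (Ω × Θ) := {p | p.1 ∈ S ∧ (∃ k, p.1 < z k) ∧ p.2 = η p.1}
  have hHω : Hω.Countable := by
    have : Hω ⊆ ⋃ k, Yof η (z k) := by
      rintro p ⟨-, ⟨k, hk⟩, hp⟩
      exact Set.mem_iUnion.2 ⟨k, hk, hp⟩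
    exact (Set.countable_iUnion fun k => countable_Yof hΩ η (z k)).mono this
  have hCH : ∀ k, CH Λ L ρ fs Φ Hω (z k) = CH Λ L ρ fs Φ (Hs (z k)) (z k) := by
    intro k
    apply CH_congr
    intro p hp
    constructor
    · rintro ⟨h1, -, h3⟩
      exact ⟨h1, hp, h3⟩
    · rintro ⟨h1, h2, h3⟩
      exact ⟨h1, ⟨k, h2⟩, h3⟩
  let V : ℕ → Set (α → α) := fun k => Vbelow Φ Hω (CH Λ L ρ fs Φ Hω) (z k)
  have hVmono : Monotone V := by
    intro a b hab f hf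
    obtain ⟨p, hp1, hp2, hp3⟩ := hf
    exact ⟨p, hp1, lt_of_lt_of_le hp2 (hz2.monotone hab), hp3⟩
  have hVU : (⋃ k, V k) = VH Λ L ρ fs Φ Hω := by
    ext f
    constructor
    · intro hf
      obtain ⟨k, p, hp1, -, hp3⟩ := Set.mem_iUnion.1 hf
      exact ⟨p, hp1, hp3⟩
    · rintro ⟨p, hp1, hp3⟩
      obtain ⟨k, hk⟩ := hp1.2.1
      exact Set.mem_iUnion.2 ⟨k, p, hp1, hk, hp3⟩
  let h : ℕ → α → α := fun k => Φ (CH Λ L ρ fs Φ Hω (z k)) (η (z k))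
  let A : ℕ → Set α := fun k => Acl Λ L ρ fs idx Φ A0 (Yof η (z k))
  have hYmono : ∀ {a b : ℕ}, a ≤ b → Yof η (z a) ⊆ Yof η (z b) := by
    intro a b hab p hp
    exact ⟨lt_of_lt_of_le hp.1 (hz2.monotone hab), hp.2⟩
  have hthinEq : ∀ k, thinOf Λ L ρ fs (V k) = CH Λ L ρ fs Φ Hω (z k) := by
    intro k
    exact (CH_eq Hω (z k)).symm
  have main := covered (V := V) (A := A) (h := h) (j0 := j0) hord hΛ hΛ0 hΛc hL hw
    (fun a b hab => Acl_mono (hYmono hab))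
    (fun n k => Cl.base (Or.inr ⟨n, rfl⟩))
    (fun k x hx => Cl.un (Set.mem_insert _ _) hx)
    (fun k x hx y hy => Cl.bin (Or.inl rfl) hx hy)
    (fun k x hx y hy => Cl.bin (Or.inr rfl) hx hy)
    hVmono
    (fun k => ⟨(z k, η (z k)), ⟨(hz1 k).1, ⟨k + 1, hz2 (Nat.lt_succ_self k)⟩, rfl⟩,
      hz2 (Nat.lt_succ_self k), rfl⟩)
    (fun k x hx => by
      refine Cl.un (Set.mem_insert_of_mem _ ?_) hx
      refine ⟨(z k, η (z k)), ⟨hz2 (Nat.lt_succ_self k), rfl⟩, Hs (z k), ?_, ?_⟩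
      · exact (hHs (z k)).trans (hYmono (Nat.le_succ k))
      · show Φ (CH Λ L ρ fs Φ Hω (z k)) (η (z k)) = _
        rw [hCH k])
    (fun k δ hδ => by
      rw [hthinEq] at hδ
      exact hΦ.1 _ (thin_CH hord hΛ0 hΛ hΛlt hHω (z k)) _ δ hδ)
    (fun k δ hδ hδA hj x hx hxδ => by
      rw [hthinEq, hCH k] at hδ
      have := hjf (z k) δ hδ hδA (lt_of_le_of_lt (hΛ (hz1 k).2) hj) x hx hxδ
      show x ≤ Φ (CH Λ L ρ fs Φ Hω (z k)) (η (z k)) δ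
      rw [hCH k]
      exact this)
  refine ⟨w, Hω, j0, hHω, ?_, ?_⟩
  · rintro p ⟨h1, -, h3⟩
    rw [h3]; exact h1
  · intro x hx
    rw [← hVU]
    exact main (Set.mem_iUnion.2 ⟨0, Cl.base (Or.inl hx)⟩)

end main

end H88PP
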