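import Pool.Agent.H88PP.Indices
import Pool.Agent.H88PP.Cover

/-!
# MP_62e0a5: the covering family (internal form)
-/

set_option autoImplicit false
set_option linter.unusedSectionVars false
open Cardinal Ordinal Set Order

namespace H88PP

section assemble

variable {α : Type} [LinearOrder α] [WellFoundedLT α]

lemma mk_hist_le {lam : Cardinal.{0}} (hpow : ∀ μ < lam, μ ^ ℵ₀ < lam) (hc : ℵ₁ < lam)
    {Θ : Type} (W : Set Θ) (hW : #W < lam) :
    #{H : Set (Om × Θ) // H.Countable ∧ ∀ p ∈ H, p.2 ∈ W} ≤ lam := by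
  classical
  have h1 : #(Om × W) < lam := by
    rw [mk_prod, Cardinal.lift_id, Cardinal.lift_id, mk_Om]
    exact mul_lt_of_lt (aleph0_lt_aleph_one.le.trans hc.le) hc hW
  let κ : Cardinal.{0} := max ℵ₀ #(Om × W)
  have hκ : κ < lam := max_lt (aleph0_lt_aleph_one.trans hc) h1
  have h2 : #{a : Set (Om × W) // a.Countable} ≤ κ ^ ℵ₀ :=
    mk_countable_subsets_le (le_max_left _ _) (le_max_right _ _)
  refine le_trans ?_ (h2.trans (hpow κ hκ).le)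
  let ι : Om × W → Om × Θ := fun p => (p.1, p.2.1)
  have hι : Function.Injective ι := by
    rintro ⟨a, b⟩ ⟨a', b'⟩ h
    simp only [ι, Prod.mk.injEq] at h
    exact Prod.ext h.1 (Subtype.ext h.2)
  refine mk_le_of_injective
    (f := fun H : {H : Set (Om × Θ) // H.Countable ∧ ∀ p ∈ H, p.2 ∈ W} =>
      (⟨ι ⁻¹' H.1, H.2.1.preimage hι⟩ : {a : Set (Om × W) // a.Countable})) ?_
  intro H H' h
  have h' : ι ⁻¹' H.1 = ι ⁻¹' H'.1 := Subtype.mk.inj h
  refine Subtype.ext ?_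
  ext p
  constructor
  · intro hp
    have : (p.1, (⟨p.2, H.2.2 p hp⟩ : W)) ∈ ι ⁻¹' H.1 := hp
    rw [h'] at this
    exact this
  · intro hp
    have : (p.1, (⟨p.2, H'.2.2 p hp⟩ : W)) ∈ ι ⁻¹' H'.1 := hp
    rw [← h'] at this
    exact this

/-- **The covering family.** -/
theorem exists_cover (hord : typeLT α = (#α).ord) {Λ : ℕ → Cardinal.{0}}
    (hΛ0 : ℵ₀ ≤ Λ 0) (hΛ : Monotone Λ) (hΛlt : ∀ j, Λ j < #α)
    (hΛc : ∀ μ < #α, ∃ j, μ < Λ j) (hpow : ∀ μ < #α, μ ^ ℵ₀ < #α)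
    {θ : Cardinal.{0}} (hθ : #α ≤ θ) (h1 : G1 #α θ.ord.ToType) (h2 : G2 #α θ.ord.ToType)
    (hT : UnifT Λ α θ.ord.ToType) :
    ∃ P : Set (Set α), #P ≤ θ ∧ (∀ X ∈ P, #X < #α) ∧
      ∀ A : Set α, A.Countable → ∃ X ∈ P, A ⊆ X := by
  classical
  have hinf : ℵ₀ < #α := lt_of_le_of_lt hΛ0 (hΛlt 0)
  have hcc : 𝔠 < #α := by
    have := hpow 2 (lt_of_lt_of_le (natCast_lt_aleph0 (n := 2)) hinf.le)
    rwa [two_power_aleph0] at this
  have ha1 : ℵ₁ < #α := lt_of_le_of_lt aleph_one_le_continuum hcc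
  have hθ0 : ℵ₀ ≤ θ := hinf.le.trans hθ
  have hΘ : #θ.ord.ToType = θ := mk_ord_toType θ
  have hne : Nonempty θ.ord.ToType := by
    rw [← mk_ne_zero_iff, hΘ]
    intro h
    rw [h] at hθ0
    exact absurd hθ0 (not_le.2 aleph0_pos)
  obtain ⟨X, hX1, hX2⟩ := h1.reindex
  obtain ⟨W, hW1, hW2⟩ := h2.reindex
  obtain ⟨Φ, hΦ⟩ := exists_code hord hΛ0 hΛ hΛlt hΛc hcc hT X hX1 hX2
  obtain ⟨ρ, fs, idx, hw⟩ := exists_walks (α := α)
  have hLex : ∀ n, ∃ x : α, ∀ y : α, sz y < Λ n → y < x := by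
    intro n
    by_contra hcon
    push Not at hcon
    -- every `x` is below some `y` with `sz y < Λ n`
    have hall : ∀ x : α, sz x < Λ n := by
      intro x
      obtain ⟨y, hy, hxy⟩ := hcon x
      exact lt_of_le_of_lt (sz_mono hxy) hy
    have : #{x : α | sz x < Λ n} ≤ Λ n := mk_sz_lt_le hord (hΛlt n)
    have huniv : {x : α | sz x < Λ n} = Set.univ := Set.eq_univ_of_forall hall
    rw [huniv, mk_univ] at this
    exact absurd this (not_le.2 (hΛlt n))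
  choose L hL using hLex
  let I : Type := Σ w : θ.ord.ToType,
    {H : Set (Om × θ.ord.ToType) // H.Countable ∧ ∀ p ∈ H, p.2 ∈ W w} × ℕ
  let Dfun : I → Set α := fun x => D Λ L ρ fs (VH Λ L ρ fs Φ x.2.1.1) x.2.2
  refine ⟨Set.range Dfun, ?_, ?_, ?_⟩
  · refine mk_range_le.trans ?_
    have : #I = Cardinal.sum fun w : θ.ord.ToType =>
        #({H : Set (Om × θ.ord.ToType) // H.Countable ∧ ∀ p ∈ H, p.2 ∈ W w} × ℕ) := mk_sigma _
    rw [this]
    refine (Cardinal.sum_le_sum _ (fun _ => θ) ?_).trans ?_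
    · intro w
      rw [mk_prod, Cardinal.lift_id, Cardinal.lift_id, mk_nat]
      refine (mul_le_mul' ((mk_hist_le hpow ha1 (W w) (hW1 w)).trans hθ) hθ0).trans ?_
      exact (mul_eq_self hθ0).le
    · rw [Cardinal.sum_const', hΘ]
      exact (mul_eq_self hθ0).le
  · rintro _ ⟨⟨w, H, j⟩, rfl⟩
    refine lt_of_le_of_lt (mk_D_le hord hΛ0 hΛ hΛlt ?_ j) (hΛlt j)
    exact countable_VH H.2.1
  · intro A hA
    obtain ⟨w, H, j, hH1, hH2, hH3⟩ := cover_of_code hord hΛ0 hΛ hΛlt hΛc hL hw hΦ Om_Iio Om_unc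
      W hW2 hA
    exact ⟨_, ⟨⟨w, ⟨H, hH1, hH2⟩, j⟩, rfl⟩, hH3⟩

end assemble

end H88PP
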