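import Mathlib

/-!
# MP_62e0a5 (pp versus cov): well-ordered base, walks and closures

`α` is a well-ordered type.  `sz x` is the size of the initial segment below `x`,
`RegEl x` says that `x` sits at the place of an infinite regular cardinal.
-/

set_option autoImplicit false
open Cardinal Ordinal Set Order

namespace H88PP

section base

variable {α : Type} [LinearOrder α] [WellFoundedLT α]

/-- Size of the initial segment below `x`. -/
noncomputable def sz (x : α) : Cardinal.{0} := #(Set.Iio x)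

/-- `x` sits at the place of an infinite regular cardinal. -/
def RegEl (x : α) : Prop :=
  (sz x).IsRegular ∧ typein (α := α) (· < ·) x = (sz x).ord

lemma card_typein_eq (x : α) : (typein (α := α) (· < ·) x).card = sz x :=
  card_typein x

lemma typein_lt_iff {x y : α} :
    typein (α := α) (· < ·) x < typein (α := α) (· < ·) y ↔ x < y :=
  typein_lt_typein _

lemma typein_lt_ord_iff {x : α} {κ : Cardinal.{0}} :
    typein (α := α) (· < ·) x < κ.ord ↔ sz x < κ := by
  rw [lt_ord, card_typein_eq]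

omit [WellFoundedLT α] in
lemma sz_mono {x y : α} (h : x ≤ y) : sz x ≤ sz y :=
  mk_le_mk_of_subset (Set.Iio_subset_Iio h)

lemma RegEl.lt_iff {x y : α} (hx : RegEl x) : y < x ↔ sz y < sz x := by
  rw [← typein_lt_iff, hx.2, typein_lt_ord_iff]

lemma RegEl.bound {x : α} (hx : RegEl x) (A : Set α) (hA : #A < sz x) :
    ∃ z < x, ∀ y ∈ A, y < x → y ≤ z := by
  have hcof : Order.cof (Set.Iio x) = sz x := by
    rw [Order.cof_Iio, hx.2, hx.1.cof_ord]
  let s : Set (Set.Iio x) := {y | y.1 ∈ A}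
  have hs : #s < Order.cof (Set.Iio x) := by
    rw [hcof]
    refine lt_of_le_of_lt ?_ hA
    refine mk_le_of_injective (f := fun y : s => (⟨y.1.1, y.2⟩ : A)) ?_
    intro a b hab
    exact Subtype.ext (Subtype.ext (by simpa using hab))
  have hnc : ¬ IsCofinal s := fun h => absurd (Order.cof_le h) (not_le.2 hs)
  simp only [IsCofinal, not_forall, not_exists, not_and, not_le] at hnc
  obtain ⟨z, hz⟩ := hnc
  exact ⟨z.1, z.2, fun y hy hyx => le_of_lt (hz ⟨y, hyx⟩ hy)⟩

/-- The walk step: below `x` there is a cofinal map from an initial segment `Iio ρ`,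
with `ρ < x` unless `x` is (at the place of) a regular cardinal. -/
lemma walk (x : α) : ∃ ρ ≤ x, ∃ f : α → α, (∀ w < ρ, f w < x) ∧
    (∀ y < x, ∃ w < ρ, y ≤ f w) ∧ (ρ = x → ℵ₀ ≤ sz x → RegEl x) := by
  classical
  set o := typein (α := α) (· < ·) x with ho
  have h1 : (Ordinal.cof o).ord ≤ o := ord_cof_le o
  have h2 : (Ordinal.cof o).ord < typeLT α := lt_of_le_of_lt h1 (typein_lt_type _ x)
  obtain ⟨ρ, hρ⟩ := typein_surj (α := α) (· < ·) h2
  have hρx : ρ ≤ x := by
    rw [← not_lt, ← typein_lt_iff, not_lt, hρ]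
    exact h1
  obtain ⟨s, hs, hs'⟩ := Order.exists_cof_eq (Set.Iio x)
  have hcard : #(Set.Iio ρ) = #s := by
    rw [hs', Order.cof_Iio, ← ho]
    have := card_typein_eq ρ
    rw [hρ, card_ord] at this
    exact this.symm
  obtain ⟨e⟩ := Cardinal.eq.1 hcard
  refine ⟨ρ, hρx, fun w => if h : w < ρ then (e ⟨w, h⟩).1.1 else x, ?_, ?_, ?_⟩
  · intro w hw
    simp only [hw, dif_pos]
    exact (e ⟨w, hw⟩).1.2
  · intro y hy
    obtain ⟨b, hb, hyb⟩ := hs ⟨y, hy⟩
    refine ⟨(e.symm ⟨b, hb⟩).1, (e.symm ⟨b, hb⟩).2, ?_⟩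
    have h : (e.symm ⟨b, hb⟩).1 < ρ := (e.symm ⟨b, hb⟩).2
    simp only [h, dif_pos]
    have : (⟨(e.symm ⟨b, hb⟩).1, h⟩ : Set.Iio ρ) = e.symm ⟨b, hb⟩ := rfl
    rw [this, Equiv.apply_symm_apply]
    exact hyb
  · intro hρeq hinf
    subst hρeq
    rw [← ho] at hρ
    have hsz : sz ρ = Ordinal.cof o := by
      rw [← card_typein_eq, ← ho]
      conv_lhs => rw [hρ]
      exact card_ord _
    refine ⟨⟨hinf, ?_⟩, ?_⟩
    · rw [hsz, Ordinal.cof_ord_cof]
    · rw [← ho, hsz]; exact hρ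

end base

section closure

variable {α : Type}

/-- Closure of a set under families of unary and binary operations. -/
inductive Cl (S : Set α) (U : Set (α → α)) (B : Set (α → α → α)) : α → Prop
  | base {x : α} : x ∈ S → Cl S U B x
  | un {f : α → α} {x : α} : f ∈ U → Cl S U B x → Cl S U B (f x)
  | bin {f : α → α → α} {x y : α} : f ∈ B → Cl S U B x → Cl S U B y → Cl S U B (f x y)

lemma Cl.mono {S S' : Set α} {U U' : Set (α → α)} {B B' : Set (α → α → α)}
    (hS : S ⊆ S') (hU : U ⊆ U') (hB : B ⊆ B') {x : α} (h : Cl S U B x) : Cl S' U' B' x := by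
  induction h with
  | base h => exact .base (hS h)
  | un hf _ ih => exact .un (hU hf) ih
  | bin hf _ _ ih1 ih2 => exact .bin (hB hf) ih1 ih2

lemma Cl.exists_of_iUnion {S : Set α} {U : ℕ → Set (α → α)} (hU : Monotone U)
    {B : Set (α → α → α)} {x : α} (h : Cl S (⋃ k, U k) B x) : ∃ k, Cl S (U k) B x := by
  induction h with
  | base h => exact ⟨0, .base h⟩
  | un hf _ ih =>
    obtain ⟨k, hk⟩ := ih
    obtain ⟨l, hl⟩ := Set.mem_iUnion.1 hf
    exact ⟨max k l, .un (hU (le_max_right k l) hl)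
      (hk.mono subset_rfl (hU (le_max_left k l)) subset_rfl)⟩
  | bin hf _ _ ih1 ih2 =>
    obtain ⟨k, hk⟩ := ih1
    obtain ⟨l, hl⟩ := ih2
    exact ⟨max k l, .bin hf (hk.mono subset_rfl (hU (le_max_left k l)) subset_rfl)
      (hl.mono subset_rfl (hU (le_max_right k l)) subset_rfl)⟩

/-- finite stages of the closure -/
def clStage (S : Set α) (U : Set (α → α)) (B : Set (α → α → α)) : ℕ → Set α
  | 0 => S
  | n + 1 => clStage S U B n ∪
      (Set.range fun p : U × clStage S U B n => p.1.1 p.2.1) ∪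
      (Set.range fun p : B × (clStage S U B n × clStage S U B n) => p.1.1 p.2.1.1 p.2.2.1)

lemma clStage_mono (S : Set α) (U : Set (α → α)) (B : Set (α → α → α)) :
    Monotone (clStage S U B) :=
  monotone_nat_of_le_succ fun n => by
    intro x hx
    exact Or.inl (Or.inl hx)

lemma Cl.mem_stage {S : Set α} {U : Set (α → α)} {B : Set (α → α → α)} {x : α}
    (h : Cl S U B x) : ∃ n, x ∈ clStage S U B n := by
  induction h with
  | base h => exact ⟨0, h⟩
  | un hf _ ih =>
    obtain ⟨n, hn⟩ := ih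
    exact ⟨n + 1, Or.inl (Or.inr ⟨(⟨_, hf⟩, ⟨_, hn⟩), rfl⟩)⟩
  | bin hf _ _ ih1 ih2 =>
    obtain ⟨n, hn⟩ := ih1
    obtain ⟨m, hm⟩ := ih2
    exact ⟨max n m + 1, Or.inr ⟨(⟨_, hf⟩, (⟨_, clStage_mono S U B (le_max_left n m) hn⟩,
      ⟨_, clStage_mono S U B (le_max_right n m) hm⟩)), rfl⟩⟩

lemma mk_clStage_le {S : Set α} {U : Set (α → α)} {B : Set (α → α → α)} {κ : Cardinal.{0}}
    (hκ : ℵ₀ ≤ κ) (hS : #S ≤ κ) (hU : #U ≤ κ) (hB : #B ≤ κ) (n : ℕ) :
    #(clStage S U B n) ≤ κ := by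
  induction n with
  | zero => exact hS
  | succ n ih =>
    have h1 : #(Set.range fun p : U × clStage S U B n => p.1.1 p.2.1) ≤ κ := by
      refine mk_range_le.trans ?_
      rw [mk_prod]
      simp only [Cardinal.lift_id]
      exact (mul_le_mul' hU ih).trans (mul_eq_self hκ).le
    have h2 : #(Set.range fun p : B × (clStage S U B n × clStage S U B n) =>
        p.1.1 p.2.1.1 p.2.2.1) ≤ κ := by
      refine mk_range_le.trans ?_
      rw [mk_prod, mk_prod]
      simp only [Cardinal.lift_id]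
      refine (mul_le_mul' hB (mul_le_mul' ih ih)).trans ?_
      rw [mul_eq_self hκ, mul_eq_self hκ]
    refine (mk_union_le _ _).trans ?_
    refine (add_le_add ((mk_union_le _ _).trans (add_le_add ih h1)) h2).trans ?_
    rw [add_eq_self hκ, add_eq_self hκ]

lemma mk_Cl_le {S : Set α} {U : Set (α → α)} {B : Set (α → α → α)} {κ : Cardinal.{0}}
    (hκ : ℵ₀ ≤ κ) (hS : #S ≤ κ) (hU : #U ≤ κ) (hB : #B ≤ κ) :
    #{x : α | Cl S U B x} ≤ κ := by
  have h : {x : α | Cl S U B x} ⊆ ⋃ n : ℕ, clStage S U B n := by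
    intro x hx
    obtain ⟨n, hn⟩ := Cl.mem_stage hx
    exact Set.mem_iUnion.2 ⟨n, hn⟩
  refine (mk_le_mk_of_subset h).trans ?_
  refine (mk_iUnion_le_sum_mk).trans ?_
  refine (sum_le_sum _ (fun _ => κ) (fun n => mk_clStage_le hκ hS hU hB n)).trans ?_
  rw [sum_const']
  simp only [mk_nat]
  exact (mul_le_mul' hκ le_rfl).trans (mul_eq_self hκ).le

end closure

end H88PP
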