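import Pool.Agent.H88PP.Hist

/-!
# MP_62e0a5: the `ω₁`-chain and the covering theorem (internal form)
-/

set_option autoImplicit false
set_option linter.unusedSectionVars false
open Cardinal Ordinal Set Order

namespace H88PP

section chain

variable {α : Type} [LinearOrder α] [WellFoundedLT α] {Θ Ω : Type} [LinearOrder Ω]
  [WellFoundedLT Ω]

/-- The coding property of `Φ`. -/
def Code (Λ : ℕ → Cardinal.{0}) (Φ : Set α → Θ → α → α) : Prop :=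
  (∀ c, Thin Λ c → ∀ η, ∀ δ ∈ c, Φ c η δ < δ) ∧
  ∀ (I : Type) (c : I → Set α) (A : Set α), #I ≤ 𝔠 → #A ≤ 𝔠 → (∀ i, Thin Λ (c i)) →
    ∃ η, ∀ i, ∃ j, ∀ δ ∈ c i, δ ∈ A → Λ j < sz δ → ∀ x ∈ A, x < δ → x ≤ Φ (c i) η δ

/-- The basic data: walks. -/
structure Walks (ρ : α → α) (fs idx : α → α → α) : Prop where
  rho_le : ∀ x, ρ x ≤ x
  fs_lt : ∀ x w, w < ρ x → fs x w < x
  idx_lt : ∀ x y, y < x → idx x y < ρ x
  le_fs : ∀ x y, y < x → y ≤ fs x (idx x y)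
  reg : ∀ x, ρ x = x → ℵ₀ ≤ sz x → RegEl x

lemma exists_walks : ∃ (ρ : α → α) (fs idx : α → α → α), Walks ρ fs idx := by
  classical
  choose ρ hρ fs h1 h2 h3 using fun x : α => walk x
  choose g hg using fun (x : α) (y : α) (h : y < x) => h2 x y h
  refine ⟨ρ, fs, fun x y => if h : y < x then g x y h else x, ⟨hρ, h1, ?_, ?_, h3⟩⟩
  · intro x y h
    simp only [h, dif_pos]
    exact (hg x y h).1
  · intro x y h
    simp only [h, dif_pos]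
    exact (hg x y h).2

variable (Λ : ℕ → Cardinal.{0}) (L : ℕ → α) (ρ : α → α) (fs idx : α → α → α)
  (Φ : Set α → Θ → α → α)

/-- The functions used to close the small sets along the chain. -/
def UA (Y : Set (Ω × Θ)) : Set (α → α) :=
  {f | ∃ p ∈ Y, ∃ H ⊆ Y, f = Φ (CH Λ L ρ fs Φ H p.1) p.2}

/-- The closure of a countable set relative to a history `Y`. -/
def Acl (A0 : Set α) (Y : Set (Ω × Θ)) : Set α :=
  {x | Cl (A0 ∪ Set.range L) (insert ρ (UA Λ L ρ fs Φ Y)) {fs, idx} x}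

variable {Λ L ρ fs idx Φ}

lemma Acl_mono {A0 : Set α} {Y Y' : Set (Ω × Θ)} (h : Y ⊆ Y') :
    Acl Λ L ρ fs idx Φ A0 Y ⊆ Acl Λ L ρ fs idx Φ A0 Y' := by
  intro x hx
  refine Cl.mono subset_rfl (Set.insert_subset_insert ?_) subset_rfl hx
  rintro f ⟨p, hp, H, hH, rfl⟩
  exact ⟨p, h hp, H, hH.trans h, rfl⟩

lemma mk_UA_le {Y : Set (Ω × Θ)} (hY : Y.Countable) : #(UA Λ L ρ fs Φ Y) ≤ 𝔠 := by
  have h : UA Λ L ρ fs Φ Y ⊆
      Set.range (fun q : Y × (𝒫 Y) => Φ (CH Λ L ρ fs Φ q.2.1 q.1.1.1) q.1.1.2) := by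
    rintro f ⟨p, hp, H, hH, rfl⟩
    exact ⟨(⟨p, hp⟩, ⟨H, hH⟩), rfl⟩
  refine (mk_le_mk_of_subset h).trans (mk_range_le.trans ?_)
  rw [mk_prod]
  simp only [Cardinal.lift_id]
  rw [mk_powerset]
  have h1 : #Y ≤ ℵ₀ := Cardinal.mk_le_aleph0_iff.2 hY.to_subtype
  refine (mul_le_mul' (h1.trans aleph0_le_continuum) (power_le_power_left two_ne_zero h1)).trans ?_
  rw [two_power_aleph0]
  exact (mul_eq_self aleph0_le_continuum).le

lemma mk_Acl_le {A0 : Set α} (hA : A0.Countable) {Y : Set (Ω × Θ)} (hY : Y.Countable) :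
    #(Acl Λ L ρ fs idx Φ A0 Y) ≤ 𝔠 := by
  refine mk_Cl_le aleph0_le_continuum ?_ ?_ ?_
  · have : (A0 ∪ Set.range L).Countable := hA.union (Set.countable_range L)
    exact (Cardinal.mk_le_aleph0_iff.2 this.to_subtype).trans aleph0_le_continuum
  · refine (mk_insert_le).trans ?_
    refine (add_le_add (mk_UA_le hY) (one_le_aleph0.trans aleph0_le_continuum)).trans
      (add_eq_self aleph0_le_continuum).le
  · have : ({fs, idx} : Set (α → α → α)).Countable := (Set.toFinite _).countable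
    exact (Cardinal.mk_le_aleph0_iff.2 this.to_subtype).trans aleph0_le_continuum

variable (Λ L ρ fs idx Φ)

/-- `η` is a good next code after the history `Y`, at stage `ζ`. -/
def Good (A0 : Set α) (Y : Set (Ω × Θ)) (ζ : Ω) (η : Θ) : Prop :=
  ∀ H ⊆ Y, ∃ j, ∀ δ ∈ CH Λ L ρ fs Φ H ζ, δ ∈ Acl Λ L ρ fs idx Φ A0 Y → Λ j < sz δ →
    ∀ x ∈ Acl Λ L ρ fs idx Φ A0 Y, x < δ → x ≤ Φ (CH Λ L ρ fs Φ H ζ) η δ

variable {Λ L ρ fs idx Φ}

lemma exists_good (hord : typeLT α = (#α).ord) (hΛ0 : ℵ₀ ≤ Λ 0) (hΛ : Monotone Λ)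
    (hΛlt : ∀ j, Λ j < #α) (hΦ : Code Λ Φ) {A0 : Set α} (hA : A0.Countable)
    {Y : Set (Ω × Θ)} (hY : Y.Countable) (ζ : Ω) :
    ∃ η, Good Λ L ρ fs idx Φ A0 Y ζ η := by
  have h1 : #Y ≤ ℵ₀ := Cardinal.mk_le_aleph0_iff.2 hY.to_subtype
  have hI : #(𝒫 Y) ≤ 𝔠 := by
    rw [mk_powerset, ← two_power_aleph0]
    exact power_le_power_left two_ne_zero h1
  obtain ⟨η, hη⟩ := hΦ.2 (𝒫 Y) (fun H => CH Λ L ρ fs Φ H.1 ζ)
    (Acl Λ L ρ fs idx Φ A0 Y) hI (mk_Acl_le hA hY)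
    (fun H => thin_CH hord hΛ0 hΛ hΛlt (hY.mono H.2) ζ)
  exact ⟨η, fun H hH => hη ⟨H, hH⟩⟩

/-- The history along a sequence of codes. -/
def Yof (η : Ω → Θ) (ζ : Ω) : Set (Ω × Θ) := {p | p.1 < ζ ∧ p.2 = η p.1}

lemma countable_Yof (hΩ : ∀ ζ : Ω, (Set.Iio ζ).Countable) (η : Ω → Θ) (ζ : Ω) :
    (Yof η ζ).Countable := by
  refine ((hΩ ζ).image fun z => (z, η z)).mono ?_
  rintro ⟨a, b⟩ ⟨h1, h2⟩
  exact ⟨a, h1, by simp only at h2; rw [h2]⟩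

lemma exists_chain (hord : typeLT α = (#α).ord) (hΛ0 : ℵ₀ ≤ Λ 0) (hΛ : Monotone Λ)
    (hΛlt : ∀ j, Λ j < #α) (hΦ : Code Λ Φ) {A0 : Set α} (hA : A0.Countable)
    (hΩ : ∀ ζ : Ω, (Set.Iio ζ).Countable) [Nonempty Θ] :
    ∃ η : Ω → Θ, ∀ ζ, Good Λ L ρ fs idx Φ A0 (Yof η ζ) ζ (η ζ) := by
  classical
  let nx : Set (Ω × Θ) → Ω → Θ := fun Y ζ =>
    if h : ∃ η, Good Λ L ρ fs idx Φ A0 Y ζ η then h.choose else Classical.arbitrary Θ
  have hnx : ∀ Y : Set (Ω × Θ), Y.Countable → ∀ ζ, Good Λ L ρ fs idx Φ A0 Y ζ (nx Y ζ) := by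
    intro Y hY ζ
    have h := exists_good (L := L) (ρ := ρ) (fs := fs) (idx := idx) hord hΛ0 hΛ hΛlt hΦ hA hY ζ
    simp only [nx, h, dif_pos]
    exact h.choose_spec
  let η : Ω → Θ := (wellFounded_lt (α := Ω)).fix fun ζ ih =>
    nx {p | ∃ h : p.1 < ζ, p.2 = ih p.1 h} ζ
  have hη : ∀ ζ, η ζ = nx (Yof η ζ) ζ := by
    intro ζ
    have : η ζ = nx {p | ∃ _ : p.1 < ζ, p.2 = η p.1} ζ :=
      (wellFounded_lt (α := Ω)).fix_eq _ ζ
    rw [this]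
    congr 1
    ext p
    simp only [Yof, exists_prop]
  refine ⟨η, fun ζ => ?_⟩
  conv => arg 10; rw [hη ζ]
  exact hnx _ (countable_Yof hΩ η ζ) ζ

end chain

end H88PP
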