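import Pool.Agent.H88PP.Assemble

/-!
# MP_62e0a5: thin families of regular cardinals (external form)
-/

set_option autoImplicit false
set_option linter.unusedSectionVars false
open Cardinal Ordinal Set Order

namespace H88PP

/-- `c` is a thin family of regular cardinals below `lam` (relative to the sequence `Λ`):
at most `Λ j` of its members are `≤ Λ (j+1)`. -/
def ThinFam (Λ : ℕ → Cardinal.{0}) (lam : Cardinal.{0}) {ι : Type} (c : ι → Cardinal.{0}) :
    Prop :=
  (∀ i, (c i).IsRegular ∧ Λ 0 < c i ∧ c i < lam) ∧ ∀ j, #{i : ι // c i ≤ Λ (j + 1)} ≤ Λ j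

/-- `≤ θ` functions in the product of the `c i` dominate, on every countable set of indices and
modulo bounded, every function there. -/
def UnifCof (Λ : ℕ → Cardinal.{0}) {ι : Type} (c : ι → Cardinal.{0}) (θ : Cardinal.{0}) :
    Prop :=
  ∃ (K : Type) (F : K → ι → Ordinal.{0}), #K ≤ θ ∧ (∀ k i, F k i < (c i).ord) ∧
    ∀ a : Set ι, a.Countable → ∀ g : ι → Ordinal.{0}, (∀ i ∈ a, g i < (c i).ord) →
      ∃ (k : K) (j : ℕ), ∀ i ∈ a, Λ j < c i → g i ≤ F k i

lemma UnifCof.mono {Λ : ℕ → Cardinal.{0}} {ι : Type} {c : ι → Cardinal.{0}}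
    {θ θ' : Cardinal.{0}} (h : UnifCof Λ c θ) (hθ : θ ≤ θ') : UnifCof Λ c θ' := by
  obtain ⟨K, F, hK, h1, h2⟩ := h
  exact ⟨K, F, hK.trans hθ, h1, h2⟩

section toInternal

variable {α : Type} [LinearOrder α] [WellFoundedLT α]

lemma unifT_of_unifCof (hord : typeLT α = (#α).ord) {Λ : ℕ → Cardinal.{0}}
    {θ : Cardinal.{0}}
    (h : ∀ (ι : Type) (c : ι → Cardinal.{0}), ThinFam Λ #α c → UnifCof Λ c θ) :
    UnifT Λ α θ.ord.ToType := by
  classical
  intro c hc
  have hthin : ThinFam Λ #α (fun δ : c => sz δ.1) := by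
    refine ⟨fun δ => ⟨(hc.1 δ.1 δ.2).1.1, (hc.1 δ.1 δ.2).2, sz_lt hord _⟩, fun j => ?_⟩
    refine le_trans ?_ (hc.2 j)
    refine mk_le_of_injective (f := fun δ : {i : c // sz i.1 ≤ Λ (j + 1)} =>
      (⟨δ.1.1, δ.1.2, δ.2⟩ : {δ : α | δ ∈ c ∧ sz δ ≤ Λ (j + 1)})) ?_
    intro a b hab
    have := Subtype.mk.inj hab
    exact Subtype.ext (Subtype.ext this)
  obtain ⟨K, F, hK, hF1, hF2⟩ := h _ _ hthin
  obtain ⟨k0, -⟩ := hF2 ∅ Set.countable_empty (fun _ => 0) (by simp)
  rw [← mk_ord_toType θ] at hK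
  obtain ⟨e⟩ := (Cardinal.le_def _ _).1 hK
  have : Nonempty K := ⟨k0⟩
  -- turning ordinals below `(sz δ).ord` into elements below `δ`
  have key : ∀ (k : K) (δ : c), ∃ z : α, z < δ.1 ∧
      typein (α := α) (· < ·) z = F k δ := by
    intro k δ
    have hreg := (hc.1 δ.1 δ.2).1
    have h1 : F k δ < typein (α := α) (· < ·) δ.1 := by
      rw [hreg.2]; exact hF1 k δ
    obtain ⟨z, hz⟩ := typein_surj (α := α) (· < ·) (h1.trans (typein_lt_type _ _))
    exact ⟨z, by rw [← typein_lt_iff, hz]; exact h1, hz⟩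
  choose G hG1 hG2 using key
  refine ⟨fun η δ => if hδ : δ ∈ c then G (Function.invFun e η) ⟨δ, hδ⟩ else δ, ?_, ?_⟩
  · intro η δ hδ
    simp only [hδ, dif_pos]
    exact hG1 _ ⟨δ, hδ⟩
  · intro a hac hacount g hg
    let a' : Set c := {δ | δ.1 ∈ a}
    have ha' : a'.Countable := hacount.preimage Subtype.val_injective
    obtain ⟨k, j, hkj⟩ := hF2 a' ha' (fun δ => typein (α := α) (· < ·) (g δ.1)) (by
      intro δ hδ
      have hreg := (hc.1 δ.1 δ.2).1
      have h2 : typein (α := α) (· < ·) (g δ.1) < typein (α := α) (· < ·) δ.1 :=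
        typein_lt_iff.2 (hg δ.1 hδ)
      rwa [hreg.2] at h2)
    refine ⟨e k, j, fun δ hδ hjδ => ?_⟩
    have hδc := hac hδ
    simp only [hδc, dif_pos, Function.leftInverse_invFun e.injective k]
    have h3 := hkj ⟨δ, hδc⟩ hδ hjδ
    rw [← hG2 k ⟨δ, hδc⟩] at h3
    by_contra hcon
    push Not at hcon
    exact absurd h3 (not_le.2 (typein_lt_iff.2 hcon))

end toInternal

/-- A covering family of `θ` sets yields uniform cofinality `≤ θ` for *every* family of regular
cardinals. -/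
lemma unifCof_of_cover {β : Type} [Nonempty β] (P : Set (Set β)) (hP1 : ∀ X ∈ P, #X < #β)
    (hP2 : ∀ A : Set β, A.Countable → ∃ X ∈ P, A ⊆ X) {Λ : ℕ → Cardinal.{0}}
    (hΛc : ∀ μ < #β, ∃ j, μ < Λ j) {ι : Type} (c : ι → Cardinal.{0})
    (hc : ∀ i, (c i).IsRegular ∧ c i < #β) : UnifCof Λ c #P := by
  classical
  obtain ⟨e⟩ : Nonempty (β ≃ (#β).ord.ToType) := by
    rw [← Cardinal.eq, mk_ord_toType]
  let o : β → Ordinal.{0} := fun x => typein (α := (#β).ord.ToType) (· < ·) (e x)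
  -- the ordinals coded by `X` below `(c i).ord`
  let S : Set β → ι → β → Ordinal.{0} := fun X i x =>
    if x ∈ X ∧ o x < (c i).ord then o x else 0
  have hS : ∀ X i x, S X i x < (c i).ord := by
    intro X i x
    simp only [S]
    split_ifs with h
    · exact h.2
    · exact ord_pos.2 (aleph0_pos.trans_le (hc i).1.aleph0_le)
  let F : P → ι → Ordinal.{0} := fun X i =>
    if #X.1 < c i then ⨆ x : X.1, S X.1 i x.1 else 0
  refine ⟨P, F, le_rfl, ?_, ?_⟩
  · intro X i
    simp only [F]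
    split_ifs with h
    · refine Ordinal.iSup_lt_of_lt_cof ?_ ?_
      · rw [(hc i).1.cof_ord]; exact h
      · intro x; exact hS _ _ _
    · exact ord_pos.2 (aleph0_pos.trans_le (hc i).1.aleph0_le)
  · intro a ha g hg
    have hex : ∀ i ∈ a, ∃ x : β, o x = g i := by
      intro i hi
      have h1 : g i < typeLT (#β).ord.ToType := by
        rw [type_toType]
        exact (hg i hi).trans (ord_lt_ord.2 (hc i).2)
      obtain ⟨z, hz⟩ := typein_surj (α := (#β).ord.ToType) (· < ·) h1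
      exact ⟨e.symm z, by simp only [o, Equiv.apply_symm_apply]; exact hz⟩
    choose! x hx using hex
    obtain ⟨X, hXP, hX⟩ := hP2 (x '' a) (ha.image x)
    obtain ⟨j, hj⟩ := hΛc _ (hP1 X hXP)
    refine ⟨⟨X, hXP⟩, j, fun i hi hji => ?_⟩
    have h1 : #X < c i := hj.trans hji
    simp only [F, h1, if_true]
    have hxX : x i ∈ X := hX ⟨i, hi, rfl⟩
    have h2 : S X i (x i) = g i := by
      simp only [S]
      rw [if_pos ⟨hxX, by rw [hx i hi]; exact hg i hi⟩, hx i hi]
    rw [← h2]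
    exact Ordinal.le_iSup (fun y : X => S X i y.1) ⟨x i, hxX⟩

end H88PP
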