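import Pool.Agent.H88PP.External

/-!
# MP_62e0a5: the thin-product pseudopower, `pp` and `cov`
-/

set_option autoImplicit false
set_option linter.unusedSectionVars false
open Cardinal Ordinal Set Order

namespace H88PP

/-- The true cofinalities whose supremum is `pp(#α)`; literally the set in the frozen statement. -/
def ppSet (α : Type) : Set Cardinal.{0} :=
  {θ : Cardinal.{0} | θ.IsRegular ∧ ∃ a : Set Cardinal.{0}, a.Countable ∧
        (∀ κ ∈ a, κ.IsRegular ∧ κ < Cardinal.mk α) ∧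
        (∀ μ : Cardinal.{0}, μ < Cardinal.mk α → ∃ κ ∈ a, μ < κ) ∧
        ∃ 𝓕 : Filter ↥a, 𝓕.NeBot ∧
          (∀ μ : Cardinal.{0}, μ < Cardinal.mk α →
            Filter.Eventually (fun κ : ↥a => μ < κ.1) 𝓕) ∧
          ∃ F : Ordinal.{0} → ↥a → Ordinal.{0},
            (∀ i : Ordinal.{0}, i < θ.ord → ∀ κ : ↥a, F i κ < κ.1.ord) ∧
            (∀ i j : Ordinal.{0}, i < j → j < θ.ord →
              Filter.Eventually (fun κ : ↥a => F i κ < F j κ) 𝓕) ∧
            ∀ g : ↥a → Ordinal.{0}, (∀ κ : ↥a, g κ < κ.1.ord) →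
              ∃ i : Ordinal.{0}, i < θ.ord ∧
                Filter.Eventually (fun κ : ↥a => g κ < F i κ) 𝓕}

/-- The sizes of covering families; the set in the frozen statement. -/
def covSet (α : Type) : Set Cardinal.{0} :=
  {c : Cardinal.{0} | ∃ P : Set (Set α), Cardinal.mk ↥P = c ∧
        (∀ X ∈ P, Cardinal.mk ↥X < Cardinal.mk α) ∧
        ∀ A : Set α, A.Countable → ∃ X ∈ P, A ⊆ X}

/-- The thin-product pseudopower. -/
noncomputable def thinPP (Λ : ℕ → Cardinal.{0}) (lam : Cardinal.{0}) : Cardinal.{0} :=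
  sInf {θ | ∀ (ι : Type) (c : ι → Cardinal.{0}), ThinFam Λ lam c → UnifCof Λ c θ}

variable {Λ : ℕ → Cardinal.{0}}

lemma covSet_nonempty {α : Type} (h : ℵ₀ < #α) : (covSet α).Nonempty := by
  refine ⟨_, {X : Set α | #X < #α}, rfl, fun X hX => hX, fun A hA => ⟨A, ?_, subset_rfl⟩⟩
  exact lt_of_le_of_lt (Cardinal.mk_le_aleph0_iff.2 hA.to_subtype) h

lemma unifCof_cov {α : Type} (h : ℵ₀ < #α) (hΛc : ∀ μ < #α, ∃ j, μ < Λ j) {ι : Type}
    (c : ι → Cardinal.{0}) (hc : ∀ i, (c i).IsRegular ∧ c i < #α) :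
    UnifCof Λ c (sInf (covSet α)) := by
  obtain ⟨P, hP, hP1, hP2⟩ := csInf_mem (covSet_nonempty h)
  have : Nonempty α := by
    rw [← mk_ne_zero_iff]
    intro h0
    rw [h0] at h
    exact absurd h (not_lt.2 aleph0_pos.le)
  rw [← hP]
  exact unifCof_of_cover P hP1 hP2 hΛc c hc

lemma thinPP_le_cov {α : Type} (h : ℵ₀ < #α) (hΛc : ∀ μ < #α, ∃ j, μ < Λ j) :
    thinPP Λ #α ≤ sInf (covSet α) :=
  csInf_le' fun _ c hc => unifCof_cov h hΛc c fun i => ⟨(hc.1 i).1, (hc.1 i).2.2⟩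

lemma thinPP_spec {α : Type} (h : ℵ₀ < #α) (hΛc : ∀ μ < #α, ∃ j, μ < Λ j) {ι : Type}
    (c : ι → Cardinal.{0}) (hc : ThinFam Λ #α c) : UnifCof Λ c (thinPP Λ #α) := by
  have hne : {θ : Cardinal.{0} | ∀ (ι : Type) (c : ι → Cardinal.{0}),
      ThinFam Λ #α c → UnifCof Λ c θ}.Nonempty :=
    ⟨_, fun _ c hc => unifCof_cov h hΛc c fun i => ⟨(hc.1 i).1, (hc.1 i).2.2⟩⟩
  exact csInf_mem hne ι c hc

/-- Transport of the covering family to `α`. -/
lemma cov_le_of_unifCof {α : Type} (hΛ0 : ℵ₀ ≤ Λ 0) (hΛ : Monotone Λ)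
    (hΛlt : ∀ j, Λ j < #α) (hΛc : ∀ μ < #α, ∃ j, μ < Λ j) (hpow : ∀ μ < #α, μ ^ ℵ₀ < #α)
    {θ : Cardinal.{0}} (hθ : #α ≤ θ) (h1 : G1 #α θ.ord.ToType) (h2 : G2 #α θ.ord.ToType)
    (hT : ∀ (ι : Type) (c : ι → Cardinal.{0}), ThinFam Λ #α c → UnifCof Λ c θ) :
    sInf (covSet α) ≤ θ := by
  classical
  have hmk : #(#α).ord.ToType = #α := mk_ord_toType _
  have hord : typeLT (#α).ord.ToType = (#(#α).ord.ToType).ord := by
    rw [hmk, type_toType]
  obtain ⟨P, hP0, hP1, hP2⟩ := exists_cover (α := (#α).ord.ToType) hord hΛ0 hΛ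
    (by simpa only [hmk] using hΛlt) (by simpa only [hmk] using hΛc)
    (by simpa only [hmk] using hpow) (by simpa only [hmk] using hθ)
    (by simpa only [hmk] using h1) (by simpa only [hmk] using h2)
    (unifT_of_unifCof hord (by simpa only [hmk] using hT))
  obtain ⟨e⟩ : Nonempty (α ≃ (#α).ord.ToType) := by
    rw [← Cardinal.eq, mk_ord_toType]
  have hmem : #((fun X : Set (#α).ord.ToType => e ⁻¹' X) '' P : Set (Set α)) ∈ covSet α := by
    refine ⟨_, rfl, ?_, ?_⟩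
    · rintro _ ⟨X, hX, rfl⟩
      refine lt_of_le_of_lt ?_ ((hP1 X hX).trans_eq hmk)
      exact mk_preimage_of_injective _ _ e.injective
    · intro A hA
      obtain ⟨X, hX, hAX⟩ := hP2 (e '' A) (hA.image e)
      exact ⟨_, ⟨X, hX, rfl⟩, Set.image_subset_iff.1 hAX⟩
  exact (csInf_le' hmem).trans (mk_image_le.trans hP0)

/-- The thin-product pseudopower bounds `pp`. -/
lemma le_of_mem_ppSet {α : Type} (hΛ0 : ℵ₀ ≤ Λ 0) (hΛ : Monotone Λ)
    (hΛlt : ∀ j, Λ j < #α)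
    {θ : Cardinal.{0}} (hT : ∀ (ι : Type) (c : ι → Cardinal.{0}), ThinFam Λ #α c → UnifCof Λ c θ)
    {θ' : Cardinal.{0}} (h : θ' ∈ ppSet α) : θ' ≤ θ := by
  classical
  obtain ⟨hreg, a, ha, ha1, ha2, 𝓕, hne, hF0, F, hF1, hF2, hF3⟩ := h
  by_contra hcon
  push Not at hcon
  -- enumerate `a`
  obtain ⟨κ0, hκ0, -⟩ := ha2 (Λ 0) (hΛlt 0)
  obtain ⟨e, he⟩ := ha.exists_eq_range ⟨κ0, hκ0⟩
  have hmem : ∀ n, e n ∈ a := fun n => by rw [he]; exact ⟨n, rfl⟩
  let c : {n : ℕ // Λ 0 < e n} → Cardinal.{0} := fun n => e n.1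
  have hthin : ThinFam Λ #α c := by
    refine ⟨fun n => ⟨(ha1 _ (hmem _)).1, n.2, (ha1 _ (hmem _)).2⟩, fun j => ?_⟩
    exact (mk_le_aleph0 (α := {i : {n : ℕ // Λ 0 < e n} // c i ≤ Λ (j + 1)})).trans
      (hΛ0.trans (hΛ (Nat.zero_le j)))
  obtain ⟨K, G, hK, hG1, hG2⟩ := hT _ c hthin
  -- right inverse
  have hs : ∀ κ : a, ∃ n, e n = κ.1 := fun κ => by
    have h1 : κ.1 ∈ Set.range e := he ▸ κ.2
    exact h1
  choose s hs using hs
  let H : K → a → Ordinal.{0} := fun k κ =>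
    if h : Λ 0 < e (s κ) then G k ⟨s κ, h⟩ else 0
  have hH : ∀ k κ, H k κ < κ.1.ord := by
    intro k κ
    simp only [H]
    split_ifs with h
    · have := hG1 k ⟨s κ, h⟩
      simpa only [c, hs] using this
    · exact ord_pos.2 (aleph0_pos.trans_le (ha1 _ κ.2).1.aleph0_le)
  have hex := fun k => hF3 (H k) (hH k)
  choose i hi1 hi2 using hex
  let I : Ordinal.{0} := ⨆ k, i k
  have hI : I < θ'.ord := by
    refine Ordinal.iSup_lt_of_lt_cof ?_ hi1
    rw [hreg.cof_ord]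
    exact lt_of_le_of_lt hK hcon
  obtain ⟨k, j, hkj⟩ := hG2 Set.univ (Set.countable_univ)
    (fun n => F I ⟨e n.1, hmem n.1⟩) (fun n _ => hF1 I hI ⟨e n.1, hmem n.1⟩)
  have hev : ∀ᶠ κ : a in 𝓕, F (i k) κ ≤ F I κ := by
    rcases (Ordinal.le_iSup i k).lt_or_eq with hlt | heq
    · exact (hF2 _ _ hlt hI).mono fun κ h => h.le
    · have : i k = I := heq
      rw [this]
      exact Filter.Eventually.of_forall fun κ => le_rfl
  have hfalse : ∀ᶠ κ : a in 𝓕, False := by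
    filter_upwards [hev, hi2 k, hF0 (Λ 0) (hΛlt 0), hF0 (Λ j) (hΛlt j)] with κ h1 h2 h3 h4
    have h0 : Λ 0 < e (s κ) := by rw [hs]; exact h3
    have h5 := hkj ⟨s κ, h0⟩ (Set.mem_univ _) (by simpa only [c, hs] using h4)
    have h6 : F I ⟨e (s κ), hmem (s κ)⟩ = F I κ := by
      congr 1
      exact Subtype.ext (hs κ)
    simp only [h6] at h5
    have h7 : H k κ = G k ⟨s κ, h0⟩ := by simp only [H, h0, dif_pos]
    rw [← h7] at h5
    exact absurd (h5.trans_lt h2) (not_lt.2 h1)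
  exact (Filter.eventually_false_iff_eq_bot.1 hfalse ▸ hne).ne rfl

/-- The diagonal family shows `#α < thinPP`. -/
lemma lt_of_unifCof {α : Type} (hΛ0 : ℵ₀ ≤ Λ 0) (hΛ : Monotone Λ)
    (hΛlt : ∀ j, Λ j < #α) (hΛc : ∀ μ < #α, ∃ j, μ < Λ j)
    {θ : Cardinal.{0}} (hT : ∀ (ι : Type) (c : ι → Cardinal.{0}), ThinFam Λ #α c → UnifCof Λ c θ) :
    #α < θ := by
  classical
  by_contra hcon
  push Not at hcon
  let c : ℕ → Cardinal.{0} := fun j => succ (Λ j)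
  have hsucc : ∀ j, succ (Λ j) < #α := by
    intro j
    obtain ⟨j', hj'⟩ := hΛc _ (hΛlt j)
    exact lt_of_le_of_lt (succ_le_of_lt hj') (hΛlt j')
  have hthin : ThinFam Λ #α c := by
    refine ⟨fun j => ⟨isRegular_succ (hΛ0.trans (hΛ (Nat.zero_le j))),
      lt_succ_of_le (hΛ (Nat.zero_le j)), hsucc j⟩, fun j => ?_⟩
    exact (mk_le_aleph0 (α := {i : ℕ // c i ≤ Λ (j + 1)})).trans (hΛ0.trans (hΛ (Nat.zero_le j)))
  obtain ⟨K, F, hK, hF1, hF2⟩ := hT _ c hthin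
  have hKα : #K ≤ #(#α).ord.ToType := by rw [mk_ord_toType]; exact hK.trans hcon
  obtain ⟨e⟩ := (Cardinal.le_def _ _).1 hKα
  have hord : typeLT (#α).ord.ToType = (#(#α).ord.ToType).ord := by
    rw [mk_ord_toType, type_toType]
  let S : ℕ → Set K := fun n => {k | sz (e k) < Λ n}
  have hS : ∀ n, #(S n) ≤ Λ n := by
    intro n
    refine le_trans ?_ (mk_sz_lt_le hord (κ := Λ n) (by rw [mk_ord_toType]; exact hΛlt n))
    refine mk_le_of_injective (f := fun k : S n => (⟨e k.1, k.2⟩ : {y | sz y < Λ n})) ?_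
    intro a b hab
    exact Subtype.ext (e.injective (Subtype.mk.inj hab))
  let g : ℕ → Ordinal.{0} := fun n => ⨆ k : S n, succ (F k.1 n)
  have hlim : ∀ n, Order.IsSuccLimit (c n).ord := fun n =>
    isSuccLimit_ord ((hΛ0.trans (hΛ (Nat.zero_le n))).trans (le_succ _))
  have hg : ∀ n, g n < (c n).ord := by
    intro n
    refine Ordinal.iSup_lt_of_lt_cof ?_ fun k => (hlim n).succ_lt (hF1 k.1 n)
    rw [(isRegular_succ (hΛ0.trans (hΛ (Nat.zero_le n)))).cof_ord]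
    exact lt_succ_of_le (hS n)
  obtain ⟨k, j, hkj⟩ := hF2 Set.univ Set.countable_univ g (fun n _ => hg n)
  obtain ⟨m, hm⟩ := hΛc (sz (e k)) (by
    have := sz_lt hord (e k)
    rwa [mk_ord_toType] at this)
  let n := max j m
  have h1 := hkj n (Set.mem_univ _) (lt_succ_of_le (hΛ (le_max_left j m)))
  have hkn : k ∈ S n := lt_of_lt_of_le hm (hΛ (le_max_right j m))
  have h2 : succ (F k n) ≤ g n := Ordinal.le_iSup (fun k : S n => succ (F k.1 n)) ⟨k, hkn⟩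
  exact absurd (h2.trans h1) (not_le.2 (lt_succ _))

end H88PP
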