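import Pool.Agent.H88PP.Base

/-!
# MP_62e0a5: thin sets, histories and the sets `D`
-/

set_option autoImplicit false
set_option linter.unusedSectionVars false
open Cardinal Ordinal Set Order

namespace H88PP

section thin

variable {α : Type} [LinearOrder α] [WellFoundedLT α]

/-- Internal form of thinness, with respect to a sequence `Λ` of cardinals. -/
def Thin (Λ : ℕ → Cardinal.{0}) (c : Set α) : Prop :=
  (∀ δ ∈ c, RegEl δ ∧ Λ 0 < sz δ) ∧ ∀ j, #{δ : α | δ ∈ c ∧ sz δ ≤ Λ (j + 1)} ≤ Λ j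

/-- The closure sets: `D Λ L ρ fs V j`. -/
def D (Λ : ℕ → Cardinal.{0}) (L : ℕ → α) (ρ : α → α) (fs : α → α → α) (V : Set (α → α))
    (j : ℕ) : Set α :=
  {x | Cl ({y | sz y < Λ j} ∪ Set.range L) (insert ρ V) {fs} x}

/-- The thin set obtained from the closures. -/
def thinOf (Λ : ℕ → Cardinal.{0}) (L : ℕ → α) (ρ : α → α) (fs : α → α → α)
    (V : Set (α → α)) : Set α :=
  {δ | RegEl δ ∧ ∃ j, Λ j < sz δ ∧ sz δ ≤ Λ (j + 1) ∧ δ ∈ D Λ L ρ fs V j}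

variable {Λ : ℕ → Cardinal.{0}} {L : ℕ → α} {ρ : α → α} {fs : α → α → α}

omit [WellFoundedLT α] in
lemma D_mono_j (hΛ : Monotone Λ) {V : Set (α → α)} {i j : ℕ} (hij : i ≤ j) :
    D Λ L ρ fs V i ⊆ D Λ L ρ fs V j := by
  intro x hx
  refine Cl.mono ?_ subset_rfl subset_rfl hx
  exact Set.union_subset_union_left _ (fun y hy => lt_of_lt_of_le hy (hΛ hij))

omit [WellFoundedLT α] in
lemma D_mono_V {V V' : Set (α → α)} (h : V ⊆ V') (j : ℕ) :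
    D Λ L ρ fs V j ⊆ D Λ L ρ fs V' j := by
  intro x hx
  exact Cl.mono subset_rfl (Set.insert_subset_insert h) subset_rfl hx

omit [WellFoundedLT α] in
lemma D_seed {V : Set (α → α)} {j : ℕ} {y : α} (h : sz y < Λ j) : y ∈ D Λ L ρ fs V j :=
  Cl.base (Or.inl h)

omit [WellFoundedLT α] in
lemma D_L {V : Set (α → α)} {j : ℕ} (n : ℕ) : L n ∈ D Λ L ρ fs V j :=
  Cl.base (Or.inr ⟨n, rfl⟩)

omit [WellFoundedLT α] in
lemma D_rho {V : Set (α → α)} {j : ℕ} {x : α} (h : x ∈ D Λ L ρ fs V j) :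
    ρ x ∈ D Λ L ρ fs V j :=
  Cl.un (Set.mem_insert _ _) h

omit [WellFoundedLT α] in
lemma D_fs {V : Set (α → α)} {j : ℕ} {x y : α} (hx : x ∈ D Λ L ρ fs V j)
    (hy : y ∈ D Λ L ρ fs V j) : fs x y ∈ D Λ L ρ fs V j :=
  Cl.bin (Set.mem_singleton _) hx hy

omit [WellFoundedLT α] in
lemma D_fn {V : Set (α → α)} {j : ℕ} {f : α → α} (hf : f ∈ V) {x : α}
    (hx : x ∈ D Λ L ρ fs V j) : f x ∈ D Λ L ρ fs V j :=
  Cl.un (Set.mem_insert_of_mem _ hf) hx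

omit [WellFoundedLT α] in
lemma D_iUnion {V : ℕ → Set (α → α)} (hV : Monotone V) {j : ℕ} {x : α}
    (hx : x ∈ D Λ L ρ fs (⋃ k, V k) j) : ∃ k, x ∈ D Λ L ρ fs (V k) j := by
  have h : insert ρ (⋃ k, V k) = ⋃ k, insert ρ (V k) := by
    rw [Set.insert_eq, Set.union_iUnion]
    rfl
  have hx' : Cl ({y | sz y < Λ j} ∪ Set.range L) (⋃ k, insert ρ (V k)) {fs} x := by
    rw [← h]; exact hx
  exact Cl.exists_of_iUnion (fun a b hab => Set.insert_subset_insert (hV hab)) hx'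

/-- The number of `y` with `sz y < κ`. -/
lemma mk_sz_lt_le (hord : typeLT α = (#α).ord) {κ : Cardinal.{0}} (hκ : κ < #α) :
    #{y : α | sz y < κ} ≤ κ := by
  obtain ⟨x, hx⟩ := typein_surj (α := α) (· < ·) (o := κ.ord) (by
    show κ.ord < typeLT α
    rw [hord]; exact ord_lt_ord.2 hκ)
  have h : {y : α | sz y < κ} ⊆ Set.Iio x := by
    intro y hy
    show y < x
    rw [← typein_lt_iff, hx, typein_lt_ord_iff]
    exact hy
  refine (mk_le_mk_of_subset h).trans ?_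
  have := card_typein_eq x
  rw [hx, card_ord] at this
  exact this.symm.le

lemma sz_lt (hord : typeLT α = (#α).ord) (x : α) : sz x < #α := by
  have h := typein_lt_type (α := α) (· < ·) x
  have h' : typein (α := α) (· < ·) x < (#α).ord := by
    rw [← hord]; exact h
  rwa [lt_ord, card_typein_eq] at h'

lemma mk_D_le (hord : typeLT α = (#α).ord) (hΛ0 : ℵ₀ ≤ Λ 0) (hΛ : Monotone Λ)
    (hΛlt : ∀ j, Λ j < #α) {V : Set (α → α)} (hV : V.Countable) (j : ℕ) :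
    #(D Λ L ρ fs V j) ≤ Λ j := by
  have h0 : ℵ₀ ≤ Λ j := hΛ0.trans (hΛ (Nat.zero_le j))
  refine mk_Cl_le h0 ?_ ?_ ?_
  · refine (mk_union_le _ _).trans ?_
    refine (add_le_add (mk_sz_lt_le hord (hΛlt j)) ((mk_range_le).trans ?_)).trans
      (add_eq_self h0).le
    simpa using h0
  · exact (Cardinal.mk_le_aleph0_iff.2 ((hV.insert ρ).to_subtype)).trans h0
  · rw [mk_singleton]
    exact (one_le_aleph0).trans h0

lemma thin_thinOf (hord : typeLT α = (#α).ord) (hΛ0 : ℵ₀ ≤ Λ 0) (hΛ : Monotone Λ)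
    (hΛlt : ∀ j, Λ j < #α) {V : Set (α → α)} (hV : V.Countable) :
    Thin Λ (thinOf Λ L ρ fs V) := by
  refine ⟨?_, ?_⟩
  · rintro δ ⟨h1, j, h2, -, -⟩
    exact ⟨h1, lt_of_le_of_lt (hΛ (Nat.zero_le j)) h2⟩
  · intro j
    refine (mk_le_mk_of_subset ?_).trans
      (mk_D_le (L := L) (ρ := ρ) (fs := fs) hord hΛ0 hΛ hΛlt hV j)
    rintro δ ⟨⟨h1, i, h2, h3, h4⟩, h5⟩
    have hij : i ≤ j := by
      by_contra hcon
      rw [not_le] at hcon
      exact absurd (lt_of_lt_of_le h2 h5) (not_lt.2 (hΛ hcon))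
    exact D_mono_j hΛ hij h4

end thin

section hist

variable {α : Type} [LinearOrder α] [WellFoundedLT α] {Θ Ω : Type} [LinearOrder Ω]
  [WellFoundedLT Ω]

/-- The functions attached to a history `H ⊆ Ω × Θ` below `ζ`, given the thin sets. -/
def Vbelow (Φ : Set α → Θ → α → α) (H : Set (Ω × Θ)) (C : Ω → Set α) (ζ : Ω) :
    Set (α → α) :=
  {f | ∃ p ∈ H, p.1 < ζ ∧ f = Φ (C p.1) p.2}

/-- The thin set attached to a history `H` at stage `ζ`. -/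
noncomputable def CH (Λ : ℕ → Cardinal.{0}) (L : ℕ → α) (ρ : α → α) (fs : α → α → α)
    (Φ : Set α → Θ → α → α) (H : Set (Ω × Θ)) : Ω → Set α :=
  (wellFounded_lt (α := Ω)).fix fun ζ ih =>
    thinOf Λ L ρ fs {f | ∃ p ∈ H, ∃ h : p.1 < ζ, f = Φ (ih p.1 h) p.2}

variable {Λ : ℕ → Cardinal.{0}} {L : ℕ → α} {ρ : α → α} {fs : α → α → α}
  {Φ : Set α → Θ → α → α}

lemma CH_eq (H : Set (Ω × Θ)) (ζ : Ω) :
    CH Λ L ρ fs Φ H ζ = thinOf Λ L ρ fs (Vbelow Φ H (CH Λ L ρ fs Φ H) ζ) := by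
  rw [CH, WellFounded.fix_eq]
  congr 1
  ext f
  simp only [Vbelow, Set.mem_ofPred_eq, exists_prop]

/-- The functions attached to the full history `H`. -/
def VH (Λ : ℕ → Cardinal.{0}) (L : ℕ → α) (ρ : α → α) (fs : α → α → α)
    (Φ : Set α → Θ → α → α) (H : Set (Ω × Θ)) : Set (α → α) :=
  {f | ∃ p ∈ H, f = Φ (CH Λ L ρ fs Φ H p.1) p.2}

lemma CH_congr {H H' : Set (Ω × Θ)} (ζ : Ω)
    (h : ∀ p : Ω × Θ, p.1 < ζ → (p ∈ H ↔ p ∈ H')) :
    CH Λ L ρ fs Φ H ζ = CH Λ L ρ fs Φ H' ζ := by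
  induction ζ using WellFoundedLT.induction with
  | ind ζ ih =>
    rw [CH_eq, CH_eq]
    congr 1
    ext f
    simp only [Vbelow, Set.mem_ofPred_eq]
    constructor
    · rintro ⟨p, hp, hpζ, rfl⟩
      refine ⟨p, (h p hpζ).1 hp, hpζ, ?_⟩
      rw [ih p.1 hpζ fun q hq => h q (hq.trans hpζ)]
    · rintro ⟨p, hp, hpζ, rfl⟩
      refine ⟨p, (h p hpζ).2 hp, hpζ, ?_⟩
      rw [ih p.1 hpζ fun q hq => h q (hq.trans hpζ)]

lemma countable_Vbelow {H : Set (Ω × Θ)} (hH : H.Countable) (C : Ω → Set α) (ζ : Ω) :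
    (Vbelow Φ H C ζ).Countable := by
  refine (hH.image fun p => Φ (C p.1) p.2).mono ?_
  rintro f ⟨p, hp, -, rfl⟩
  exact ⟨p, hp, rfl⟩

lemma countable_VH {H : Set (Ω × Θ)} (hH : H.Countable) :
    (VH Λ L ρ fs Φ H).Countable := by
  refine (hH.image fun p => Φ (CH Λ L ρ fs Φ H p.1) p.2).mono ?_
  rintro f ⟨p, hp, rfl⟩
  exact ⟨p, hp, rfl⟩

lemma thin_CH (hord : typeLT α = (#α).ord) (hΛ0 : ℵ₀ ≤ Λ 0) (hΛ : Monotone Λ)
    (hΛlt : ∀ j, Λ j < #α) {H : Set (Ω × Θ)} (hH : H.Countable) (ζ : Ω) :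
    Thin Λ (CH Λ L ρ fs Φ H ζ) := by
  rw [CH_eq]
  exact thin_thinOf hord hΛ0 hΛ hΛlt (countable_Vbelow hH _ _)

end hist

end H88PP
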