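import Pool.Agent.H88PP.MkCode

/-!
# MP_62e0a5: the index cardinals `λ^{+n}`
-/

set_option autoImplicit false
set_option linter.unusedSectionVars false
open Cardinal Ordinal Set Order

namespace H88PP

/-- The index type `ω₁`. -/
abbrev Om : Type := (Cardinal.ord ℵ₁).ToType

lemma Om_Iio (ζ : Om) : (Set.Iio ζ).Countable := by
  have h : #(Set.Iio ζ) < ℵ₁ := mk_Iio_toType_ord_lt ζ
  have h2 : #(Set.Iio ζ) ≤ ℵ₀ := by
    have h3 : #(Set.Iio ζ) < Order.succ ℵ₀ := by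
      generalize #(Set.Iio ζ) = c at h
      rwa [succ_aleph0]
    exact lt_succ_iff.1 h3
  exact Cardinal.mk_le_aleph0_iff.1 h2

lemma mk_Om : #Om = ℵ₁ := by simp [Om]

lemma Om_unc : ¬ (Set.univ : Set Om).Countable := by
  intro h
  have h1 : #(Set.univ : Set Om) ≤ ℵ₀ := Cardinal.mk_le_aleph0_iff.2 h.to_subtype
  rw [mk_univ, mk_Om] at h1
  exact absurd h1 (not_le.2 aleph0_lt_aleph_one)

/-- (G1) `≤ #Θ` many subsets of `Θ`, each of size `≤ lam`, cover all subsets of size `≤ 𝔠`. -/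
def G1 (lam : Cardinal.{0}) (Θ : Type) : Prop :=
  ∃ (K : Type) (X : K → Set Θ), #K ≤ #Θ ∧ (∀ k, #(X k) ≤ lam) ∧
    ∀ Y : Set Θ, #Y ≤ 𝔠 → ∃ k, Y ⊆ X k

/-- (G2) `≤ #Θ` many subsets of `Θ`, each of size `< lam`, such that every `ω₁`-sequence in `Θ`
has uncountably many terms in one of them. -/
def G2 (lam : Cardinal.{0}) (Θ : Type) : Prop :=
  ∃ (K : Type) (W : K → Set Θ), #K ≤ #Θ ∧ (∀ k, #(W k) < lam) ∧
    ∀ q : Om → Θ, ∃ k, ¬ {ζ | q ζ ∈ W k}.Countable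

lemma G1.reindex {lam : Cardinal.{0}} {Θ : Type} (h : G1 lam Θ) :
    ∃ X : Θ → Set Θ, (∀ η, #(X η) ≤ lam) ∧ ∀ Y : Set Θ, #Y ≤ 𝔠 → ∃ η, Y ⊆ X η := by
  obtain ⟨K, X, hK, hX1, hX2⟩ := h
  obtain ⟨k0, -⟩ := hX2 ∅ (by simp)
  obtain ⟨e⟩ := (Cardinal.le_def _ _).1 hK
  have : Nonempty K := ⟨k0⟩
  refine ⟨fun η => X (Function.invFun e η), fun η => hX1 _, fun Y hY => ?_⟩
  obtain ⟨k, hk⟩ := hX2 Y hY
  exact ⟨e k, by simpa only [Function.leftInverse_invFun e.injective k] using hk⟩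

lemma G2.reindex {lam : Cardinal.{0}} {Θ : Type} [Nonempty Θ] (h : G2 lam Θ) :
    ∃ W : Θ → Set Θ, (∀ η, #(W η) < lam) ∧
      ∀ q : Om → Θ, ∃ w, ¬ {ζ | q ζ ∈ W w}.Countable := by
  obtain ⟨K, W, hK, hW1, hW2⟩ := h
  obtain ⟨k0, -⟩ := hW2 (fun _ => Classical.arbitrary Θ)
  obtain ⟨e⟩ := (Cardinal.le_def _ _).1 hK
  have : Nonempty K := ⟨k0⟩
  refine ⟨fun η => W (Function.invFun e η), fun η => hW1 _, fun q => ?_⟩
  obtain ⟨k, hk⟩ := hW2 q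
  exact ⟨e k, by simpa only [Function.leftInverse_invFun e.injective k] using hk⟩

lemma bounded_of_card {θ : Cardinal.{0}} (hθ : ℵ₀ ≤ θ) (Y : Set (succ θ).ord.ToType)
    (hY : #Y ≤ θ) : ∃ δ : (succ θ).ord.ToType, ∀ y ∈ Y, y < δ := by
  have hreg := isRegular_succ hθ
  have hcof : Order.cof (succ θ).ord.ToType = succ θ := by
    rw [cof_toType, hreg.cof_ord]
  by_contra hcon
  push Not at hcon
  have hc : IsCofinal Y := by
    intro δ
    obtain ⟨y, hy, hyδ⟩ := hcon δ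
    exact ⟨y, hy, hyδ⟩
  have := Order.cof_le hc
  rw [hcof] at this
  exact absurd (this.trans hY) (not_le.2 (lt_succ θ))

lemma exists_emb {θ : Cardinal.{0}} (δ : (succ θ).ord.ToType) :
    Nonempty (Set.Iio δ ↪ θ.ord.ToType) := by
  have h : #(Set.Iio δ) < succ θ := mk_Iio_toType_ord_lt δ
  rw [lt_succ_iff] at h
  rw [← Cardinal.le_def, mk_ord_toType]
  exact h

lemma G1_succ {lam θ : Cardinal.{0}} (hθ : ℵ₀ ≤ θ) (hc : 𝔠 ≤ θ)
    (h : G1 lam θ.ord.ToType) : G1 lam (succ θ).ord.ToType := by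
  classical
  obtain ⟨K, X, hK, hX1, hX2⟩ := h
  rw [mk_ord_toType] at hK
  let e : ∀ δ : (succ θ).ord.ToType, Set.Iio δ ↪ θ.ord.ToType := fun δ => (exists_emb δ).some
  refine ⟨(succ θ).ord.ToType × K, fun p => {y | ∃ h : y < p.1, e p.1 ⟨y, h⟩ ∈ X p.2},
    ?_, ?_, ?_⟩
  · rw [mk_prod, Cardinal.lift_id, Cardinal.lift_id, mk_ord_toType]
    refine (mul_le_mul' le_rfl (hK.trans (le_succ θ))).trans ?_
    exact (mul_eq_self (hθ.trans (le_succ θ))).le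
  · rintro ⟨δ, k⟩
    refine le_trans ?_ (hX1 k)
    refine mk_le_of_injective (f := fun y : {y | ∃ h : y < δ, e δ ⟨y, h⟩ ∈ X k} =>
      (⟨e δ ⟨y.1, y.2.choose⟩, y.2.choose_spec⟩ : X k)) ?_
    intro a b hab
    have h1 : e δ ⟨a.1, a.2.choose⟩ = e δ ⟨b.1, b.2.choose⟩ := by simpa using hab
    have h2 := (e δ).injective h1
    exact Subtype.ext (Subtype.mk.inj h2)
  · intro Y hY
    obtain ⟨δ, hδ⟩ := bounded_of_card hθ Y (hY.trans hc)
    let Y' : Set θ.ord.ToType := Set.range fun y : Y => e δ ⟨y.1, hδ y.1 y.2⟩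
    obtain ⟨k, hk⟩ := hX2 Y' (mk_range_le.trans hY)
    refine ⟨(δ, k), fun y hy => ⟨hδ y hy, hk ⟨⟨y, hy⟩, rfl⟩⟩⟩

lemma G2_succ {lam θ : Cardinal.{0}} (hθ : ℵ₀ ≤ θ) (hc : ℵ₁ ≤ θ)
    (h : G2 lam θ.ord.ToType) : G2 lam (succ θ).ord.ToType := by
  classical
  obtain ⟨K, X, hK, hX1, hX2⟩ := h
  rw [mk_ord_toType] at hK
  let e : ∀ δ : (succ θ).ord.ToType, Set.Iio δ ↪ θ.ord.ToType := fun δ => (exists_emb δ).some
  refine ⟨(succ θ).ord.ToType × K, fun p => {y | ∃ h : y < p.1, e p.1 ⟨y, h⟩ ∈ X p.2},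
    ?_, ?_, ?_⟩
  · rw [mk_prod, Cardinal.lift_id, Cardinal.lift_id, mk_ord_toType]
    refine (mul_le_mul' le_rfl (hK.trans (le_succ θ))).trans ?_
    exact (mul_eq_self (hθ.trans (le_succ θ))).le
  · rintro ⟨δ, k⟩
    refine lt_of_le_of_lt ?_ (hX1 k)
    refine mk_le_of_injective (f := fun y : {y | ∃ h : y < δ, e δ ⟨y, h⟩ ∈ X k} =>
      (⟨e δ ⟨y.1, y.2.choose⟩, y.2.choose_spec⟩ : X k)) ?_
    intro a b hab
    have h1 : e δ ⟨a.1, a.2.choose⟩ = e δ ⟨b.1, b.2.choose⟩ := by simpa using hab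
    have h2 := (e δ).injective h1
    exact Subtype.ext (Subtype.mk.inj h2)
  · intro q
    obtain ⟨δ, hδ⟩ := bounded_of_card hθ (Set.range q) (mk_range_le.trans (mk_Om.le.trans hc))
    obtain ⟨k, hk⟩ := hX2 (fun ζ => e δ ⟨q ζ, hδ _ ⟨ζ, rfl⟩⟩)
    refine ⟨(δ, k), fun hcon => hk (hcon.mono ?_)⟩
    intro ζ hζ
    exact ⟨hδ _ ⟨ζ, rfl⟩, hζ⟩

lemma G1_base {lam : Cardinal.{0}} (h0 : lam ≠ 0) : G1 lam lam.ord.ToType := by
  refine ⟨PUnit, fun _ => Set.univ, ?_, fun _ => ?_, fun Y _ => ⟨PUnit.unit, Set.subset_univ _⟩⟩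
  · rw [mk_ord_toType, mk_punit]
    exact Cardinal.one_le_iff_ne_zero.2 h0
  · rw [mk_univ, mk_ord_toType]

lemma G2_base {lam : Cardinal.{0}} (h0 : ℵ₀ ≤ lam) {Λ : ℕ → Cardinal.{0}}
    (hΛlt : ∀ j, Λ j < lam) (hΛc : ∀ μ < lam, ∃ j, μ < Λ j) : G2 lam lam.ord.ToType := by
  have hord : typeLT lam.ord.ToType = (#(lam.ord.ToType)).ord := by
    rw [type_toType, mk_ord_toType]
  refine ⟨ℕ, fun n => {x | sz x < Λ n}, ?_, ?_, ?_⟩
  · rw [mk_ord_toType, mk_nat]; exact h0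
  · intro n
    refine lt_of_le_of_lt (mk_sz_lt_le hord ?_) (hΛlt n)
    rw [mk_ord_toType]; exact hΛlt n
  · intro q
    by_contra hcon
    push Not at hcon
    apply Om_unc
    refine (Set.countable_iUnion hcon).mono ?_
    intro ζ _
    obtain ⟨j, hj⟩ := hΛc (sz (q ζ)) (by
      have := sz_lt hord (q ζ)
      rwa [mk_ord_toType] at this)
    exact Set.mem_iUnion.2 ⟨j, hj⟩

lemma le_succ_iterate (lam : Cardinal.{0}) (n : ℕ) : lam ≤ (Order.succ^[n]) lam := by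
  induction n with
  | zero => exact le_rfl
  | succ n ih =>
    rw [Function.iterate_succ_apply']
    exact ih.trans (le_succ _)

lemma G1_iterate {lam : Cardinal.{0}} (h0 : ℵ₀ ≤ lam) (hc : 𝔠 ≤ lam) (n : ℕ) :
    G1 lam ((Order.succ^[n]) lam).ord.ToType := by
  induction n with
  | zero => exact G1_base (fun h => by rw [h] at h0; exact absurd h0 (not_le.2 aleph0_pos))
  | succ n ih =>
    rw [Function.iterate_succ_apply']
    exact G1_succ (h0.trans (le_succ_iterate lam n)) (hc.trans (le_succ_iterate lam n)) ih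

lemma G2_iterate {lam : Cardinal.{0}} (h0 : ℵ₁ ≤ lam) {Λ : ℕ → Cardinal.{0}}
    (hΛlt : ∀ j, Λ j < lam) (hΛc : ∀ μ < lam, ∃ j, μ < Λ j) (n : ℕ) :
    G2 lam ((Order.succ^[n]) lam).ord.ToType := by
  induction n with
  | zero => exact G2_base (aleph0_lt_aleph_one.le.trans h0) hΛlt hΛc
  | succ n ih =>
    rw [Function.iterate_succ_apply']
    exact G2_succ ((aleph0_lt_aleph_one.le.trans h0).trans (le_succ_iterate lam n))
      (h0.trans (le_succ_iterate lam n)) ih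

end H88PP
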