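import Pool.Agent.H88PP.Chain

/-!
# MP_62e0a5: from uniform cofinality of thin sets to a coding function `Φ`
-/

set_option autoImplicit false
set_option linter.unusedSectionVars false
open Cardinal Ordinal Set Order

namespace H88PP

section code

variable {α : Type} [LinearOrder α] [WellFoundedLT α] {Θ : Type}
variable {Λ : ℕ → Cardinal.{0}}

/-- Internal form of every thin set has uniform cofinality at most `#Θ`. -/
def UnifT (Λ : ℕ → Cardinal.{0}) (α Θ : Type) [LinearOrder α] [WellFoundedLT α] : Prop :=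
  ∀ c : Set α, Thin Λ c → ∃ F : Θ → α → α, (∀ η, ∀ δ ∈ c, F η δ < δ) ∧
    ∀ a ⊆ c, a.Countable → ∀ g : α → α, (∀ δ ∈ a, g δ < δ) →
      ∃ (η : Θ) (j : ℕ), ∀ δ ∈ a, Λ j < sz δ → g δ ≤ F η δ

lemma exists_below {δ : α} (h : ℵ₀ ≤ sz δ) : ∃ y, y < δ := by
  have hne : (sz δ) ≠ 0 := fun h0 => by
    rw [h0] at h
    exact absurd h (not_le.2 aleph0_pos)
  obtain ⟨y⟩ := (mk_ne_zero_iff.1 hne)
  exact ⟨y.1, y.2⟩

lemma mk_countable_subsets_le {T : Type} {κ : Cardinal.{0}} (hκ : ℵ₀ ≤ κ) (hT : #T ≤ κ) :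
    #{a : Set T // a.Countable} ≤ κ ^ ℵ₀ := by
  have h : #{a : Set T // a.Countable} = #{t : Set T // #t ≤ ℵ₀} := by
    congr 1
    congr 1
    ext t
    rw [Cardinal.mk_le_aleph0_iff]
    rfl
  rw [h]
  refine (mk_bounded_set_le T ℵ₀).trans ?_
  exact power_le_power_right (max_le hT hκ)

/-- Combining `≤ #α` many functions. -/
lemma exists_combine (hord : typeLT α = (#α).ord) (hΛ0 : ℵ₀ ≤ Λ 0) (hΛ : Monotone Λ)
    (hΛlt : ∀ j, Λ j < #α) (hΛc : ∀ μ < #α, ∃ j, μ < Λ j) {c : Set α} (hc : Thin Λ c)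
    (F : Θ → α → α) (hF : ∀ η, ∀ δ ∈ c, F η δ < δ) (X : Set Θ) (hX : #X ≤ #α) :
    ∃ φ : α → α, (∀ δ ∈ c, φ δ < δ) ∧
      ∀ ε ∈ X, ∃ j, ∀ δ ∈ c, Λ j < sz δ → F ε δ ≤ φ δ := by
  classical
  obtain ⟨e⟩ := (Cardinal.le_def _ _).1 hX
  have key : ∀ δ : α, δ ∈ c → ∃ z < δ, ∀ (ε : X) (j : ℕ), sz (e ε) < Λ j → Λ j < sz δ →
      F ε.1 δ ≤ z := by
    intro δ hδ
    have hreg := (hc.1 δ hδ).1
    have h0 : Λ 0 < sz δ := (hc.1 δ hδ).2
    have hunc : ℵ₀ < sz δ := lt_of_le_of_lt hΛ0 h0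
    let E : ℕ → Set X := fun j => {ε | sz (e ε) < Λ j ∧ Λ j < sz δ}
    have hE : ∀ j, #(E j) < sz δ := by
      intro j
      by_cases hj : Λ j < sz δ
      · refine lt_of_le_of_lt ?_ hj
        refine le_trans ?_ (mk_sz_lt_le hord (hΛlt j))
        refine mk_le_of_injective (f := fun ε : E j => (⟨e ε.1, ε.2.1⟩ : {y : α | sz y < Λ j})) ?_
        intro a b hab
        have : e a.1 = e b.1 := by simpa using hab
        exact Subtype.ext (e.injective this)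
      · have : E j = ∅ := by
          ext ε
          simp only [E, Set.mem_ofPred_eq, Set.mem_empty_iff_false, iff_false, not_and]
          exact fun _ => hj
        rw [this, mk_emptyCollection]
        exact aleph0_pos.trans hunc
    have hU : #(⋃ j, E j) < sz δ := by
      refine card_iUnion_lt_iff_forall_of_isRegular hreg.1 ?_ |>.2 ?_
      · simpa using hunc
      · exact hE
    obtain ⟨z, hz1, hz2⟩ := hreg.bound ((fun ε : X => F ε.1 δ) '' (⋃ j, E j))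
      (lt_of_le_of_lt mk_image_le hU)
    refine ⟨z, hz1, fun ε j h1 h2 => hz2 _ ⟨ε, Set.mem_iUnion.2 ⟨j, h1, h2⟩, rfl⟩
      (hF _ δ hδ)⟩
  choose! φ hφ1 hφ2 using key
  refine ⟨φ, hφ1, fun ε hε => ?_⟩
  obtain ⟨j, hj⟩ := hΛc (sz (e ⟨ε, hε⟩)) (sz_lt hord _)
  exact ⟨j, fun δ hδ hj' => hφ2 δ hδ ⟨ε, hε⟩ j hj hj'⟩

/-- **Coding lemma.** -/
theorem exists_code (hord : typeLT α = (#α).ord) (hΛ0 : ℵ₀ ≤ Λ 0) (hΛ : Monotone Λ)
    (hΛlt : ∀ j, Λ j < #α) (hΛc : ∀ μ < #α, ∃ j, μ < Λ j) (hc : 𝔠 < #α)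
    (hT : UnifT Λ α Θ) (X : Θ → Set Θ) (hX1 : ∀ η, #(X η) ≤ #α)
    (hX2 : ∀ Y : Set Θ, #Y ≤ 𝔠 → ∃ η, Y ⊆ X η) :
    ∃ Φ : Set α → Θ → α → α, Code Λ Φ := by
  classical
  choose F hF1 hF2 using hT
  have hcomb : ∀ (c : Set α) (η : Θ), ∃ φ : α → α, ∀ hc : Thin Λ c, (∀ δ ∈ c, φ δ < δ) ∧
      ∀ ε ∈ X η, ∃ j, ∀ δ ∈ c, Λ j < sz δ → F c hc ε δ ≤ φ δ := by
    intro c η
    by_cases hc : Thin Λ c
    · obtain ⟨φ, h1, h2⟩ := exists_combine hord hΛ0 hΛ hΛlt hΛc hc (F c hc) (hF1 c hc) (X η)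
        (hX1 η)
      exact ⟨φ, fun _ => ⟨h1, h2⟩⟩
    · exact ⟨id, fun h => absurd h hc⟩
  choose Φ hΦ using hcomb
  refine ⟨Φ, fun c hc η => (hΦ c η hc).1, ?_⟩
  intro I c A hI hA hthin
  obtain ⟨j0, hj0⟩ := hΛc 𝔠 hc
  -- the bounding function of `A`
  have hg : ∀ δ : α, ∃ z : α, (∃ i, δ ∈ c i) → z < δ ∧ (Λ j0 < sz δ → ∀ x ∈ A, x < δ → x ≤ z) := by
    intro δ
    by_cases hδ : ∃ i, δ ∈ c i
    · obtain ⟨i, hi⟩ := hδ
      have hreg := ((hthin i).1 δ hi).1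
      by_cases hs : Λ j0 < sz δ
      · obtain ⟨z, hz1, hz2⟩ := hreg.bound A (lt_of_le_of_lt hA (hj0.trans hs))
        exact ⟨z, fun _ => ⟨hz1, fun _ => hz2⟩⟩
      · obtain ⟨y, hy⟩ := exists_below (δ := δ) hreg.1.1
        exact ⟨y, fun _ => ⟨hy, fun h => absurd h hs⟩⟩
    · exact ⟨δ, fun h => absurd h hδ⟩
  choose g hg using hg
  -- the codes
  have hcode : ∀ (i : I) (a : Set A), a.Countable → ∃ ε : Θ, ∃ j : ℕ,
      ∀ δ ∈ ((↑) '' a : Set α) ∩ c i, Λ j < sz δ → g δ ≤ F (c i) (hthin i) ε δ := by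
    intro i a ha
    have hcount : (((↑) '' a : Set α) ∩ c i).Countable :=
      (ha.image _).mono Set.inter_subset_left
    exact hF2 (c i) (hthin i) _ Set.inter_subset_right hcount g
      (fun δ hδ => (hg δ ⟨i, hδ.2⟩).1)
  choose ε hε using hcode
  let Y : Set Θ := Set.range fun p : I × {a : Set A // a.Countable} => ε p.1 p.2.1 p.2.2
  have hY : #Y ≤ 𝔠 := by
    refine mk_range_le.trans ?_
    rw [mk_prod]
    simp only [Cardinal.lift_id]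
    refine (mul_le_mul' hI (mk_countable_subsets_le aleph0_le_continuum hA)).trans ?_
    rw [continuum_power_aleph0]
    exact (mul_eq_self aleph0_le_continuum).le
  obtain ⟨η, hη⟩ := hX2 Y hY
  refine ⟨η, fun i => ?_⟩
  by_contra hcon
  push Not at hcon
  choose d hd1 hd2 hd3 x hx1 hx2 hx3 using hcon
  -- bad points above level `j0`
  let a : Set A := Set.range fun n : ℕ => (⟨d (j0 + n), hd2 (j0 + n)⟩ : A)
  have ha : a.Countable := Set.countable_range _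
  obtain ⟨j2, hj2⟩ := hε i a ha
  have hmem : ε i a ha ∈ X η := hη ⟨(i, ⟨a, ha⟩), rfl⟩
  obtain ⟨j1, hj1⟩ := (hΦ (c i) η (hthin i)).2 _ hmem
  set n := max j1 j2 with hn
  have hda : d (j0 + n) ∈ ((↑) '' a : Set α) ∩ c i :=
    ⟨⟨⟨d (j0 + n), hd2 (j0 + n)⟩, ⟨n, rfl⟩, rfl⟩, hd1 _⟩
  have h1 : Λ j1 < sz (d (j0 + n)) :=
    lt_of_le_of_lt (hΛ (by omega)) (hd3 (j0 + n))
  have h2 : Λ j2 < sz (d (j0 + n)) :=
    lt_of_le_of_lt (hΛ (by omega)) (hd3 (j0 + n))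
  have h0 : Λ j0 < sz (d (j0 + n)) :=
    lt_of_le_of_lt (hΛ (by omega)) (hd3 (j0 + n))
  have e1 : x (j0 + n) ≤ g (d (j0 + n)) :=
    (hg _ ⟨i, hd1 _⟩).2 h0 _ (hx1 _) (hx2 _)
  have e2 := hj2 _ hda h2
  have e3 := hj1 _ (hd1 (j0 + n)) h1
  exact absurd (e1.trans (e2.trans e3)) (not_le.2 (hx3 (j0 + n)))

end code

end H88PP
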