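import Pool.Agent.H88PP.All

/-!
# MP_62e0a5: the index cardinals below `λ^{+ω₁}`
-/

set_option autoImplicit false
set_option linter.unusedSectionVars false
open Cardinal Ordinal Set Order

namespace H88PP

/-- Strong form of `G2`. -/
def G2s (lam : Cardinal.{0}) (Θ : Type) : Prop :=
  ∃ (K : Type) (W : K → Set Θ), #K ≤ #Θ ∧ (∀ k, #(W k) < lam) ∧
    ∀ Z : Set Om, ¬ Z.Countable → ∀ q : Om → Θ, ∃ k, ¬ {ζ | ζ ∈ Z ∧ q ζ ∈ W k}.Countable

lemma G2s_base {lam : Cardinal.{0}} (h0 : ℵ₀ ≤ lam) {Λ : ℕ → Cardinal.{0}}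
    (hΛlt : ∀ j, Λ j < lam) (hΛc : ∀ μ < lam, ∃ j, μ < Λ j) : G2s lam lam.ord.ToType := by
  have hord : typeLT lam.ord.ToType = (#(lam.ord.ToType)).ord := by
    rw [type_toType, mk_ord_toType]
  refine ⟨ℕ, fun n => {x | sz x < Λ n}, ?_, ?_, ?_⟩
  · rw [mk_ord_toType, mk_nat]; exact h0
  · intro n
    refine lt_of_le_of_lt (mk_sz_lt_le hord ?_) (hΛlt n)
    rw [mk_ord_toType]; exact hΛlt n
  · intro Z hZ q
    by_contra hcon
    push Not at hcon
    apply hZ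
    refine (Set.countable_iUnion hcon).mono ?_
    intro ζ hζ
    obtain ⟨j, hj⟩ := hΛc (sz (q ζ)) (by
      have := sz_lt hord (q ζ)
      rwa [mk_ord_toType] at this)
    exact Set.mem_iUnion.2 ⟨j, hζ, hj⟩

lemma mk_pull_le {Θ Θ' : Type} (I : Set Θ') (e : I ↪ Θ) (W : Set Θ) :
    #{x : Θ' | ∃ h : x ∈ I, e ⟨x, h⟩ ∈ W} ≤ #W := by
  refine mk_le_of_injective (f := fun y : {x : Θ' | ∃ h : x ∈ I, e ⟨x, h⟩ ∈ W} =>
    (⟨e ⟨y.1, y.2.choose⟩, y.2.choose_spec⟩ : W)) ?_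
  intro a b hab
  have h1 : e ⟨a.1, a.2.choose⟩ = e ⟨b.1, b.2.choose⟩ := by simpa using hab
  have h2 := e.injective h1
  exact Subtype.ext (Subtype.mk.inj h2)

lemma G2s_succ {lam θ : Cardinal.{0}} (hθ : ℵ₀ ≤ θ) (hc : ℵ₁ ≤ θ)
    (h : G2s lam θ.ord.ToType) : G2s lam (Order.succ θ).ord.ToType := by
  classical
  obtain ⟨K, X, hK, hX1, hX2⟩ := h
  rw [mk_ord_toType] at hK
  let e : ∀ δ : (Order.succ θ).ord.ToType, Set.Iio δ ↪ θ.ord.ToType := fun δ =>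
    (exists_emb δ).some
  refine ⟨(Order.succ θ).ord.ToType × K,
    fun p => {y | ∃ h : y ∈ Set.Iio p.1, e p.1 ⟨y, h⟩ ∈ X p.2}, ?_, ?_, ?_⟩
  · rw [mk_prod, Cardinal.lift_id, Cardinal.lift_id, mk_ord_toType]
    refine (mul_le_mul' le_rfl (hK.trans (le_succ θ))).trans ?_
    exact (mul_eq_self (hθ.trans (le_succ θ))).le
  · rintro ⟨δ, k⟩
    exact lt_of_le_of_lt (mk_pull_le _ _ _) (hX1 k)
  · intro Z hZ q
    obtain ⟨δ, hδ⟩ := bounded_of_card hθ (Set.range q) (mk_range_le.trans (mk_Om.le.trans hc))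
    obtain ⟨k, hk⟩ := hX2 Z hZ (fun ζ => e δ ⟨q ζ, hδ _ ⟨ζ, rfl⟩⟩)
    refine ⟨(δ, k), fun hcon => hk (hcon.mono ?_)⟩
    rintro ζ ⟨hζZ, hζ⟩
    exact ⟨hζZ, hδ _ ⟨ζ, rfl⟩, hζ⟩

lemma G2s_limit {lam : Cardinal.{0}} {β γ : Ordinal.{0}}
    (hγ : Order.IsSuccLimit γ) (hcard : γ.card ≤ ℵ₀)
    (ih : ∀ δ < γ, G2s lam (ℵ_ (β + δ)).ord.ToType) : G2s lam (ℵ_ (β + γ)).ord.ToType := by
  classical
  have hord : typeLT (ℵ_ (β + γ)).ord.ToType = (#((ℵ_ (β + γ)).ord.ToType)).ord := by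
    rw [type_toType, mk_ord_toType]
  have hΘ : #((ℵ_ (β + γ)).ord.ToType) = ℵ_ (β + γ) := mk_ord_toType _
  let d : γ.ToType → Ordinal.{0} := fun t => Order.succ (typein (α := γ.ToType) (· < ·) t)
  have hd : ∀ t, d t < γ := fun t => hγ.succ_lt (by
    have := typein_lt_type (α := γ.ToType) (· < ·) t
    rwa [type_toType] at this)
  let κ : γ.ToType → Cardinal.{0} := fun t => ℵ_ (β + d t)
  have hκ : ∀ t, κ t < ℵ_ (β + γ) := fun t => aleph_lt_aleph.2 (by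
    have := hd t
    exact (add_lt_add_iff_left β).2 this)
  let I : γ.ToType → Set (ℵ_ (β + γ)).ord.ToType := fun t => {x | sz x < κ t}
  have hI : ∀ t, Nonempty (I t ↪ (κ t).ord.ToType) := by
    intro t
    rw [← Cardinal.le_def, mk_ord_toType]
    exact mk_sz_lt_le hord (by rw [hΘ]; exact hκ t)
  let e : ∀ t, I t ↪ (κ t).ord.ToType := fun t => (hI t).some
  choose K W hK hW1 hW2 using fun t => ih (d t) (hd t)
  refine ⟨Σ t, K t, fun p => {x | ∃ h : x ∈ I p.1, e p.1 ⟨x, h⟩ ∈ W p.1 p.2}, ?_, ?_, ?_⟩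
  · rw [mk_sigma, hΘ]
    refine (Cardinal.sum_le_sum _ (fun _ => ℵ_ (β + γ)) fun t => ?_).trans ?_
    · refine (hK t).trans ?_
      rw [mk_ord_toType]
      exact (hκ t).le
    · rw [Cardinal.sum_const', mk_toType]
      refine (mul_le_mul' (hcard.trans (aleph0_le_aleph (β + γ))) le_rfl).trans ?_
      exact (mul_eq_self (aleph0_le_aleph _)).le
  · rintro ⟨t, k⟩
    exact lt_of_le_of_lt (mk_pull_le _ _ _) (hW1 t k)
  · intro Z hZ q
    have hcov : ∀ ζ, ∃ t, q ζ ∈ I t := by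
      intro ζ
      have h1 : sz (q ζ) < ℵ_ (β + γ) := by
        have := sz_lt hord (q ζ)
        rwa [hΘ] at this
      have hγ0 : 0 < γ := hγ.bot_lt
      rcases lt_or_ge (sz (q ζ)) ℵ₀ with h2 | h2
      · obtain ⟨t, -⟩ := typein_surj (α := γ.ToType) (· < ·) (o := 0)
          (by rw [type_toType]; exact hγ0)
        exact ⟨t, lt_of_lt_of_le h2 (aleph0_le_aleph _)⟩
      · obtain ⟨ε, hε⟩ := mem_range_aleph_iff.2 h2
        have hεlt : ε < β + γ := by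
          rw [← hε] at h1
          exact aleph_lt_aleph.1 h1
        have hδ : ∃ δ < γ, ε ≤ β + δ := by
          rcases le_or_gt β ε with h3 | h3
          · refine ⟨ε - β, ?_, ?_⟩
            · rw [← add_lt_add_iff_left β, Ordinal.add_sub_cancel_of_le h3]
              exact hεlt
            · rw [Ordinal.add_sub_cancel_of_le h3]
          · exact ⟨0, hγ0, by rw [add_zero]; exact h3.le⟩
        obtain ⟨δ, hδ1, hδ2⟩ := hδ
        obtain ⟨t, ht⟩ := typein_surj (α := γ.ToType) (· < ·) (o := δ)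
          (by rw [type_toType]; exact hδ1)
        refine ⟨t, ?_⟩
        show sz (q ζ) < ℵ_ (β + d t)
        rw [← hε]
        refine aleph_lt_aleph.2 (lt_of_le_of_lt hδ2 ?_)
        refine (add_lt_add_iff_left β).2 ?_
        show δ < Order.succ (typein (α := γ.ToType) (· < ·) t)
        rw [ht]; exact lt_succ _
    obtain ⟨t, ht⟩ : ∃ t, ¬ {ζ | ζ ∈ Z ∧ q ζ ∈ I t}.Countable := by
      by_contra hcon
      push Not at hcon
      apply hZ
      have : Countable γ.ToType := by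
        rw [← Cardinal.mk_le_aleph0_iff, mk_toType]; exact hcard
      refine (Set.countable_iUnion hcon).mono ?_
      intro ζ hζ
      obtain ⟨t, ht⟩ := hcov ζ
      exact Set.mem_iUnion.2 ⟨t, hζ, ht⟩
    have hne : Nonempty (κ t).ord.ToType := by
      rw [← mk_ne_zero_iff, mk_ord_toType]
      exact (aleph_pos _).ne'
    let q' : Om → (κ t).ord.ToType := fun ζ =>
      if h : q ζ ∈ I t then e t ⟨q ζ, h⟩ else Classical.arbitrary _
    obtain ⟨k, hk⟩ := hW2 t _ ht q'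
    refine ⟨⟨t, k⟩, fun hcon => hk (hcon.mono ?_)⟩
    rintro ζ ⟨⟨hζZ, hζI⟩, hζ⟩
    refine ⟨hζZ, hζI, ?_⟩
    simp only [q', hζI, dif_pos] at hζ
    exact hζ

/-- `G2` holds for all `θ < λ^{+ω₁}`. -/
lemma G2s_all {β : Ordinal.{0}} (hβ : ℵ₁ ≤ ℵ_ β) {Λ : ℕ → Cardinal.{0}}
    (hΛlt : ∀ j, Λ j < ℵ_ β) (hΛc : ∀ μ < ℵ_ β, ∃ j, μ < Λ j) (γ : Ordinal.{0})
    (hγ : γ.card ≤ ℵ₀) : G2s (ℵ_ β) (ℵ_ (β + γ)).ord.ToType := by
  induction γ using Ordinal.limitRecOn with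
  | zero =>
    rw [add_zero]
    exact G2s_base (aleph0_le_aleph _) hΛlt hΛc
  | add_one γ ih =>
    have h1 : γ.card ≤ ℵ₀ := (card_le_card (le_self_add : γ ≤ γ + 1)).trans hγ
    have h2 := ih h1
    have h3 : β + (γ + 1) = Order.succ (β + γ) := by
      rw [← add_assoc, Order.succ_eq_add_one]
    rw [h3, aleph_succ]
    refine G2s_succ (aleph0_le_aleph _) ?_ h2
    exact hβ.trans (aleph_le_aleph.2 (by simp))
  | limit γ hlim ih =>
    refine G2s_limit hlim hγ fun δ hδ => ih δ hδ ?_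
    exact (card_le_card hδ.le).trans hγ

end H88PP
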